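import Pool.Agent.H86.WB.Sw

/-!
# (W1#): `ExbStmt`

PROOF. `Q` is one of the two quadratic forms `Ec c`, `dl c`, `m = max |c_i|_φ`. There is a direction `v` among `e₁ = (1, 0, 0)`,
`e₂ = (0, 1, 0)`, `e₃ = (0, 0, 1)`, `(1, 0, 1)` with `|Q v|_φ ≥ m² / 16`: `Q e₁ = ∓ c₃²`, `Q e₃ = ∓ c₁²`; if `|c₁|, |c₃| ≤ m / 4` then
`|c₂| = m`, `Ec c e₂ = - (c₁ c₃ + 3 c₂²)`, `dl c (1, 0, 1) = (c₁ - c₃)² + 4 c₂²`. On a line `b₀ + x v` the form is a quadratic polynomial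
`a x² + l x + q`, `a = Q v`, `4 a (a x² + l x + q) = (2 a x + l - w) (2 a x + l + w)`, so `x` lies in one of two discs of radius
`r = 4 μ s` at `φ` (`line`). The lines are counted by the other two coordinates (`b₂`, `b₃ - b₁` for `v = (1, 0, 1)`) (`dir`).
-/

set_option autoImplicit false

namespace H86.WB

open NumberField Finset H88.A4 Pool.Agent.H67.WA H88.WS

private theorem quad (a l q : ℂ) : ∃ w : ℂ, ∀ x : ℂ,
    4 * a * (a * x ^ 2 + l * x + q) = (2 * a * x + l - w) * (2 * a * x + l + w) := by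
  obtain ⟨w, hw⟩ := IsAlgClosed.exists_pow_nat_eq (l ^ 2 - 4 * a * q) (n := 2) (by norm_num)
  exact ⟨w, fun x => by linear_combination hw⟩

variable (K : Type) [Field K] [NumberField K]

variable {K} in
private theorem vol_ite (φ : K →+* ℂ) [DecidableEq (K →+* ℂ)] {r R : ℝ} (hR : 0 < R) :
    vol (fun ψ => if ψ = φ then 2 * r else 2 * R) =
      2 ^ Module.finrank ℚ K * (r / R * R ^ Module.finrank ℚ K) := by
  have e1 : (2 * R) ^ Module.finrank ℚ K = 2 * R * ∏ ψ ∈ Finset.univ.erase φ, (2 * R) := by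
    rw [Finset.mul_prod_erase (s := (Finset.univ : Finset (K →+* ℂ))) (a := φ)
      (fun ψ => 2 * R) (Finset.mem_univ φ)]
    exact (vol_const (K := K) (2 * R)).symm
  have e2 : vol (fun ψ => if ψ = φ then 2 * r else 2 * R) =
      2 * r * ∏ ψ ∈ Finset.univ.erase φ, (2 * R) := by
    rw [vol, ← Finset.mul_prod_erase _ _ (Finset.mem_univ φ), if_pos rfl]
    congr 1
    refine Finset.prod_congr rfl fun ψ hψ => ?_
    rw [if_neg (Finset.ne_of_mem_erase hψ)]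
  rw [e2]
  have e3 : 2 ^ Module.finrank ℚ K * (r / R * R ^ Module.finrank ℚ K) =
      r / R * (2 * R) ^ Module.finrank ℚ K := by
    rw [mul_pow]
    ring
  rw [e3, e1]
  field_simp

/-- one disc -/
private theorem disc : ∃ C : ℝ, 1 ≤ C ∧ ∀ (φ : K →+* ℂ) (R r : ℝ), 1 ≤ R → 1 ≤ r →
    ∀ S : Finset (𝓞 K), (∀ x ∈ S, ∀ ψ, sz ψ x ≤ R) → (∀ x ∈ S, ∀ y ∈ S, sz φ (x - y) ≤ 2 * r) →
    (S.card : ℝ) ≤ C * (r / R * R ^ Module.finrank ℚ K) := by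
  classical
  obtain ⟨C1, hC1, h1⟩ := f1d K
  obtain ⟨d, hd⟩ : ∃ d, d = Module.finrank ℚ K := ⟨_, rfl⟩
  have hd0 : d ≠ 0 := hd ▸ Module.finrank_pos.ne'
  have h2d : (1 : ℝ) ≤ 2 ^ d := one_le_pow₀ (by norm_num)
  refine ⟨C1 * (1 + 2 ^ d), by nlinarith, ?_⟩
  intro φ R r hR hr S hS hS2
  have hR0 : 0 < R := by linarith
  have h2 := h1 ⊤ top_ne_bot (fun ψ => if ψ = φ then 2 * r else 2 * R)
    (fun ψ => by
      show 0 ≤ if ψ = φ then 2 * r else 2 * R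
      split_ifs <;> positivity) S
    (fun x hx y hy => ⟨Submodule.mem_top, fun ψ => by
      show sz ψ (x - y) ≤ if ψ = φ then 2 * r else 2 * R
      split_ifs with h
      · rw [h]
        exact hS2 x hx y hy
      · have := sz_sub ψ x y
        have := hS x hx ψ
        have := hS y hy ψ
        linarith⟩)
  rw [ni_top, div_one, vol_ite φ hR0, ← hd] at h2
  refine h2.trans ?_
  rw [← hd]
  have h3 : 1 ≤ r / R * R ^ d := by
    have h4 : R ≤ R ^ d := le_self_pow₀ hR hd0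
    calc 1 ≤ r := hr
      _ = r / R * R := by field_simp
      _ ≤ r / R * R ^ d := mul_le_mul_of_nonneg_left h4 (by positivity)
  calc C1 * (1 + 2 ^ d * (r / R * R ^ d)) ≤ C1 * (r / R * R ^ d + 2 ^ d * (r / R * R ^ d)) := by
        refine mul_le_mul_of_nonneg_left ?_ (by linarith)
        linarith
    _ = _ := by ring

/-- a quadratic polynomial which is small at `φ` -/
private theorem line : ∃ C : ℝ, 1 ≤ C ∧ ∀ (φ : K →+* ℂ) (a l q : 𝓞 K) (R r E : ℝ), a ≠ 0 →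
    1 ≤ R → 1 ≤ r → E ≤ sz φ a * r ^ 2 → ∀ S : Finset (𝓞 K),
    (∀ x ∈ S, (∀ ψ, sz ψ x ≤ R) ∧ sz φ (a * x ^ 2 + l * x + q) ≤ E) →
    (S.card : ℝ) ≤ C * (r / R * R ^ Module.finrank ℚ K) := by
  classical
  obtain ⟨C1, hC1, h1⟩ := disc K
  refine ⟨2 * C1, by linarith, ?_⟩
  intro φ a l q R r E ha hR hr hE S hS
  obtain ⟨w, hw⟩ := quad (φ (a : K)) (φ (l : K)) (φ (q : K))
  have ha0 : 0 < sz φ a := sz_pos φ ha
  have hpt : ∀ x ∈ S, ‖2 * φ (a : K) * φ (x : K) + φ (l : K) - w‖ ≤ 2 * sz φ a * r ∨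
      ‖2 * φ (a : K) * φ (x : K) + φ (l : K) + w‖ ≤ 2 * sz φ a * r := by
    intro x hx
    by_contra hcon
    push Not at hcon
    obtain ⟨h2, h3⟩ := hcon
    have h4 := (hS x hx).2
    have h5 : ‖4 * φ (a : K) * (φ (a : K) * φ (x : K) ^ 2 + φ (l : K) * φ (x : K) + φ (q : K))‖ =
        4 * (sz φ a * sz φ (a * x ^ 2 + l * x + q)) := by
      rw [norm_mul, norm_mul]
      have e1 : ‖(4 : ℂ)‖ = 4 := by norm_num
      have e2 : φ (a : K) * φ (x : K) ^ 2 + φ (l : K) * φ (x : K) + φ (q : K) =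
          φ ((a * x ^ 2 + l * x + q : 𝓞 K) : K) := by
        simp [map_add, map_mul, map_pow]
      rw [e1, e2]
      unfold sz
      ring
    rw [hw, norm_mul] at h5
    have h6 : (2 * sz φ a * r) * (2 * sz φ a * r) <
        ‖2 * φ (a : K) * φ (x : K) + φ (l : K) - w‖ *
        ‖2 * φ (a : K) * φ (x : K) + φ (l : K) + w‖ :=
      mul_lt_mul'' h2 h3 (by positivity) (by positivity)
    rw [h5] at h6
    have h7 : sz φ a * sz φ (a * x ^ 2 + l * x + q) ≤ sz φ a * (sz φ a * r ^ 2) :=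
      mul_le_mul_of_nonneg_left (h4.trans hE) ha0.le
    nlinarith
  have hdiff : ∀ (z : ℂ) (T : Finset (𝓞 K)), T ⊆ S →
      (∀ x ∈ T, ‖2 * φ (a : K) * φ (x : K) + z‖ ≤ 2 * sz φ a * r) →
      (T.card : ℝ) ≤ C1 * (r / R * R ^ Module.finrank ℚ K) := by
    intro z T hT hz
    refine h1 φ R r hR hr T (fun x hx => (hS x (hT hx)).1) fun x hx y hy => ?_
    have h2 := norm_sub_le (2 * φ (a : K) * φ (x : K) + z) (2 * φ (a : K) * φ (y : K) + z)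
    have h3 : ‖2 * φ (a : K) * φ (x : K) + z - (2 * φ (a : K) * φ (y : K) + z)‖ =
        2 * sz φ a * sz φ (x - y) := by
      have e1 : 2 * φ (a : K) * φ (x : K) + z - (2 * φ (a : K) * φ (y : K) + z) =
          2 * φ (a : K) * φ ((x - y : 𝓞 K) : K) := by
        simp [map_sub]
        ring
      rw [e1, norm_mul, norm_mul]
      have e2 : ‖(2 : ℂ)‖ = 2 := by norm_num
      rw [e2]
      rfl
    rw [h3] at h2
    have h4 := hz x hx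
    have h5 := hz y hy
    have h6 : 2 * sz φ a * sz φ (x - y) ≤ 2 * sz φ a * (2 * r) := by linarith
    exact le_of_mul_le_mul_left h6 (by positivity)
  rw [← Finset.card_filter_add_card_filter_not
    (fun x : 𝓞 K => ‖2 * φ (a : K) * φ (x : K) + φ (l : K) - w‖ ≤ 2 * sz φ a * r)]
  push_cast
  have g1 := hdiff (φ (l : K) - w) (S.filter fun x : 𝓞 K =>
    ‖2 * φ (a : K) * φ (x : K) + φ (l : K) - w‖ ≤ 2 * sz φ a * r) (Finset.filter_subset _ _)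
    (fun x hx => by
      have := (Finset.mem_filter.1 hx).2
      rwa [add_sub_assoc] at this)
  have g2 := hdiff (φ (l : K) + w) (S.filter fun x : 𝓞 K =>
    ¬ ‖2 * φ (a : K) * φ (x : K) + φ (l : K) - w‖ ≤ 2 * sz φ a * r) (Finset.filter_subset _ _)
    (fun x hx => by
      obtain ⟨h2, h3⟩ := Finset.mem_filter.1 hx
      have := (hpt x h2).resolve_left h3
      rwa [add_assoc] at this)
  linarith

/-- quadratic along lines of direction `v` -/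
private def Lin (Q : T3 K → 𝓞 K) (v : T3 K) : Prop := ∀ (b0 : T3 K) (x : 𝓞 K),
  Q (b0 + x • v) = Q v * x ^ 2 + (Q (b0 + v) - Q b0 - Q v) * x + Q b0

private theorem lin_Ec (c v : T3 K) : Lin K (Ec c) v := by
  intro b0 x
  simp only [Ec, mx, dt, Prod.fst_add, Prod.snd_add, Prod.smul_fst, Prod.smul_snd, smul_eq_mul]
  ring

private theorem lin_dl (c v : T3 K) : Lin K (dl c) v := by
  intro b0 x
  simp only [dl, mx, dt, Prod.fst_add, Prod.snd_add, Prod.smul_fst, Prod.smul_snd, smul_eq_mul]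
  ring

/-- the lines of direction `v`; `x` the coordinate on the line, `y1`, `y2` the coordinates of the line -/
private theorem dir : ∃ C : ℝ, 1 ≤ C ∧ ∀ (φ : K →+* ℂ) (Q : T3 K → 𝓞 K) (v : T3 K), Lin K Q v →
    Q v ≠ 0 → ∀ (x y1 y2 : T3 K → 𝓞 K) (b0 : 𝓞 K → 𝓞 K → T3 K),
    (∀ b, b = b0 (y1 b) (y2 b) + x b • v) → ∀ R R1 R2 r E : ℝ, 1 ≤ R → 1 ≤ R1 → 1 ≤ R2 → 1 ≤ r →
    E ≤ sz φ (Q v) * r ^ 2 → ∀ S : Finset (T3 K), (∀ b ∈ S, (∀ ψ, sz ψ (x b) ≤ R ∧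
      sz ψ (y1 b) ≤ R1 ∧ sz ψ (y2 b) ≤ R2) ∧ sz φ (Q b) ≤ E) →
    (S.card : ℝ) ≤ C * (R1 ^ Module.finrank ℚ K * (R2 ^ Module.finrank ℚ K *
      (r / R * R ^ Module.finrank ℚ K))) := by
  classical
  obtain ⟨C1, hC1, h1⟩ := line K
  obtain ⟨C2, hC2, h2⟩ := f1 K
  obtain ⟨d, hd⟩ : ∃ d, d = Module.finrank ℚ K := ⟨_, rfl⟩
  rw [← hd] at h1 ⊢
  refine ⟨2 * C2 * (2 * C2) * C1, ?_, ?_⟩
  · have h3 : 1 ≤ 2 * C2 := by linarith
    exact one_le_mul_of_one_le_of_one_le (one_le_mul_of_one_le_of_one_le h3 h3) hC1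
  intro φ Q v hlin hv x y1 y2 b0 hb R R1 R2 r E hR hR1 hR2 hr hE S hS
  have hbox : ∀ (W : ℝ), 1 ≤ W → ∀ P : Finset (𝓞 K), (∀ z ∈ P, ∀ ψ, sz ψ z ≤ W) →
      (P.card : ℝ) ≤ 2 * C2 * W ^ d := by
    intro W hW P hP
    have h3 := h2 ⊤ top_ne_bot (fun _ => W) (fun _ => by linarith) P
      (fun z hz => ⟨Submodule.mem_top, hP z hz⟩)
    rw [ni_top, div_one, vol_const, ← hd] at h3
    have h4 : 1 ≤ W ^ d := one_le_pow₀ hW
    nlinarith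
  have g1 := hbox R1 hR1 (S.image y1) (fun z hz ψ => by
    obtain ⟨b, hbS, rfl⟩ := Finset.mem_image.1 hz
    exact ((hS b hbS).1 ψ).2.1)
  have hR0 : 0 < R := by linarith
  have hR10 : 0 < R1 := by linarith
  have hR20 : 0 < R2 := by linarith
  have hr0 : 0 < r := by linarith
  have h5 := card_fib S y1 (M := 2 * C2 * R2 ^ d * (C1 * (r / R * R ^ d)))
    (N := 2 * C2 * R1 ^ d) (by positivity) g1 (fun z1 _ => by
      have g2 := hbox R2 hR2 ((S.filter fun b => y1 b = z1).image y2) (fun z hz ψ => by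
        obtain ⟨b, hbS, rfl⟩ := Finset.mem_image.1 hz
        exact ((hS b (Finset.mem_filter.1 hbS).1).1 ψ).2.2)
      refine card_fib (S.filter fun b => y1 b = z1) y2 (by positivity) g2 (fun z2 _ => ?_)
      have hm : ∀ b ∈ (S.filter fun b => y1 b = z1).filter (fun b => y2 b = z2),
          b ∈ S ∧ b = b0 z1 z2 + x b • v := by
        intro b hbm
        obtain ⟨hb1, hb2⟩ := Finset.mem_filter.1 hbm
        obtain ⟨hb3, hb4⟩ := Finset.mem_filter.1 hb1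
        refine ⟨hb3, ?_⟩
        have := hb b
        rwa [hb4, hb2] at this
      have hinj : Set.InjOn x ((S.filter fun b => y1 b = z1).filter fun b => y2 b = z2) := by
        intro b hbm b' hbm' hxx
        rw [(hm b hbm).2, (hm b' hbm').2, hxx]
      rw [← Finset.card_image_of_injOn hinj]
      refine h1 φ (Q v) (Q (b0 z1 z2 + v) - Q (b0 z1 z2) - Q v) (Q (b0 z1 z2)) R r E hv hR hr hE _
        (fun t ht => ?_)
      obtain ⟨b, hbm, rfl⟩ := Finset.mem_image.1 ht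
      obtain ⟨hb1, hb2⟩ := hm b hbm
      refine ⟨fun ψ => ((hS b hb1).1 ψ).1, ?_⟩
      rw [← hlin, ← hb2]
      exact (hS b hb1).2)
  refine h5.trans (le_of_eq ?_)
  ring

private theorem fin_bd {C s ρ1 ρ2 μ R R1 R2 : ℝ} (d : ℕ) (hs : 0 < s)
    (h1 : 0 < ρ1) (hμ : 0 < μ) (hR : s * ρ1 ^ 2 ≤ R) (hR1 : 0 < R1) (hR2 : 0 < R2)
    (hp : R * R1 * R2 ≤ 2 * C ^ 3 * (s ^ 3 * (ρ1 * ρ2) ^ 3)) :
    R1 ^ d * (R2 ^ d * (4 * (μ * s) / R * R ^ d)) ≤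
      4 * (2 * C ^ 3) ^ d * (s ^ (3 * d) * (ρ1 * ρ2) ^ (3 * d) * (μ / ρ1 ^ 2)) := by
  have hR0 : 0 < R := lt_of_lt_of_le (by positivity) hR
  have e1 : 4 * (μ * s) / R ≤ 4 * (μ / ρ1 ^ 2) := by
    rw [div_le_iff₀ hR0]
    calc 4 * (μ * s) = 4 * (μ / ρ1 ^ 2) * (s * ρ1 ^ 2) := by
          field_simp
      _ ≤ 4 * (μ / ρ1 ^ 2) * R := mul_le_mul_of_nonneg_left hR (by positivity)
  have e2 : (R * R1 * R2) ^ d ≤ (2 * C ^ 3) ^ d * (s ^ (3 * d) * (ρ1 * ρ2) ^ (3 * d)) := by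
    refine (pow_le_pow_left₀ (by positivity) hp d).trans (le_of_eq ?_)
    rw [mul_pow (2 * C ^ 3), mul_pow (s ^ 3), ← pow_mul, ← pow_mul]
  calc R1 ^ d * (R2 ^ d * (4 * (μ * s) / R * R ^ d)) = (R * R1 * R2) ^ d * (4 * (μ * s) / R) := by
        rw [mul_pow, mul_pow]
        ring
    _ ≤ ((2 * C ^ 3) ^ d * (s ^ (3 * d) * (ρ1 * ρ2) ^ (3 * d))) * (4 * (μ / ρ1 ^ 2)) :=
        mul_le_mul e2 e1 (by positivity) ((by positivity : (0:ℝ) ≤ (R * R1 * R2) ^ d).trans e2)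
    _ = _ := by ring

/-- one form -/
private theorem form {C : ℝ} (hC : 1 ≤ C) : ∃ C' : ℝ, 1 ≤ C' ∧ ∀ (φ : K →+* ℂ)
    (Q : T3 K → 𝓞 K) (m : ℝ), 0 < m → (∀ v, Lin K Q v) →
    (m ^ 2 ≤ 16 * sz φ (Q (1, 0, 0)) ∨ m ^ 2 ≤ 16 * sz φ (Q (0, 1, 0)) ∨
      m ^ 2 ≤ 16 * sz φ (Q (0, 0, 1)) ∨ m ^ 2 ≤ 16 * sz φ (Q (1, 0, 1))) →
    ∀ s ρ1 ρ2 μ : ℝ, 1 ≤ s → 0 < ρ1 → ρ1 ≤ ρ2 → 1 ≤ s * ρ1 ^ 2 → 0 < μ → 1 ≤ μ * s →
    ∀ S : Finset (T3 K), (∀ b ∈ S, Bx C s ρ1 ρ2 b ∧ sz φ (Q b) ≤ μ ^ 2 * (s * m) ^ 2) →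
    (S.card : ℝ) ≤ C' * (s ^ (3 * Module.finrank ℚ K) *
      (ρ1 * ρ2) ^ (3 * Module.finrank ℚ K) * (μ / ρ1 ^ 2)) := by
  obtain ⟨C1, hC1, h1⟩ := dir K
  obtain ⟨d, hd⟩ : ∃ d, d = Module.finrank ℚ K := ⟨_, rfl⟩
  rw [← hd] at h1 ⊢
  have hC3 : (1 : ℝ) ≤ C ^ 3 := one_le_pow₀ hC
  have hC3d : (1 : ℝ) ≤ (2 * C ^ 3) ^ d := one_le_pow₀ (by linarith)
  refine ⟨C1 * (4 * (2 * C ^ 3) ^ d), one_le_mul_of_one_le_of_one_le hC1 (by linarith), ?_⟩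
  intro φ Q m hm hlin hcase s ρ1 ρ2 μ hs hρ1 hρ12 hsρ hμ hμs S hS
  have hs0 : 0 < s := by linarith
  have hC0 : 0 < C := by linarith
  have hρ2 : 0 < ρ2 := by linarith
  have hr : 1 ≤ 4 * (μ * s) := by linarith
  have hq1 : ρ1 ^ 2 ≤ ρ1 * ρ2 := by
    rw [pow_two]
    exact mul_le_mul_of_nonneg_left hρ12 hρ1.le
  have hq2 : ρ1 * ρ2 ≤ ρ2 ^ 2 := by
    rw [pow_two]
    exact mul_le_mul_of_nonneg_right hρ12 hρ2.le
  have hA : s * ρ1 ^ 2 ≤ C * s * ρ1 ^ 2 := by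
    rw [mul_assoc]
    exact le_mul_of_one_le_left (by positivity) hC
  have hB : C * s * ρ1 ^ 2 ≤ C * s * (ρ1 * ρ2) := mul_le_mul_of_nonneg_left hq1 (by positivity)
  have hD : C * s * (ρ1 * ρ2) ≤ C * s * ρ2 ^ 2 := mul_le_mul_of_nonneg_left hq2 (by positivity)
  have hA1 : 1 ≤ C * s * ρ1 ^ 2 := hsρ.trans hA
  have hB1 : 1 ≤ C * s * (ρ1 * ρ2) := hA1.trans hB
  have hD1 : 1 ≤ C * s * ρ2 ^ 2 := hB1.trans hD
  have hE : ∀ v, m ^ 2 ≤ 16 * sz φ (Q v) →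
      μ ^ 2 * (s * m) ^ 2 ≤ sz φ (Q v) * (4 * (μ * s)) ^ 2 ∧ Q v ≠ 0 := by
    intro v hv
    constructor
    · calc μ ^ 2 * (s * m) ^ 2 = (μ * s) ^ 2 * m ^ 2 := by ring
        _ ≤ (μ * s) ^ 2 * (16 * sz φ (Q v)) := mul_le_mul_of_nonneg_left hv (by positivity)
        _ = _ := by ring
    · intro h0
      rw [h0, sz_zero, mul_zero] at hv
      have : 0 < m ^ 2 := by positivity
      linarith
  have hP : ∀ X Y Z : ℝ, X * Y * Z = C ^ 3 * (s ^ 3 * (ρ1 * ρ2) ^ 3) →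
      X * Y * Z ≤ 2 * C ^ 3 * (s ^ 3 * (ρ1 * ρ2) ^ 3) := by
    intro X Y Z h
    rw [h]
    have : 0 < C ^ 3 * (s ^ 3 * (ρ1 * ρ2) ^ 3) := by positivity
    linarith
  rcases hcase with hv | hv | hv | hv
  · obtain ⟨g1, g2⟩ := hE _ hv
    have g3 := h1 φ Q (1, 0, 0) (hlin _) g2 (fun b => b.1) (fun b => b.2.1) (fun b => b.2.2)
      (fun y z => (0, y, z)) (fun b => Prod.ext (by simp) (Prod.ext (by simp) (by simp))) (C * s * ρ1 ^ 2)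
      (C * s * (ρ1 * ρ2)) (C * s * ρ2 ^ 2) (4 * (μ * s)) _ hA1 hB1 hD1 hr g1 S
      (fun b hb => ⟨fun ψ => ⟨(hS b hb).1.1 ψ, (hS b hb).1.2.1 ψ, (hS b hb).1.2.2 ψ⟩, (hS b hb).2⟩)
    refine g3.trans ((mul_le_mul_of_nonneg_left (fin_bd (C := C) (ρ2 := ρ2) d hs0 hρ1 hμ hA
      (by positivity) (by positivity) (hP _ _ _ (by ring))) (by linarith)).trans
      (le_of_eq (by ring)))
  · obtain ⟨g1, g2⟩ := hE _ hv
    have g3 := h1 φ Q (0, 1, 0) (hlin _) g2 (fun b => b.2.1) (fun b => b.1) (fun b => b.2.2)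
      (fun y z => (y, 0, z)) (fun b => Prod.ext (by simp) (Prod.ext (by simp) (by simp))) (C * s * (ρ1 * ρ2))
      (C * s * ρ1 ^ 2) (C * s * ρ2 ^ 2) (4 * (μ * s)) _ hB1 hA1 hD1 hr g1 S
      (fun b hb => ⟨fun ψ => ⟨(hS b hb).1.2.1 ψ, (hS b hb).1.1 ψ, (hS b hb).1.2.2 ψ⟩, (hS b hb).2⟩)
    refine g3.trans ((mul_le_mul_of_nonneg_left (fin_bd (C := C) (ρ2 := ρ2) d hs0 hρ1 hμ
      (hA.trans hB) (by positivity) (by positivity) (hP _ _ _ (by ring))) (by linarith)).trans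
      (le_of_eq (by ring)))
  · obtain ⟨g1, g2⟩ := hE _ hv
    have g3 := h1 φ Q (0, 0, 1) (hlin _) g2 (fun b => b.2.2) (fun b => b.1) (fun b => b.2.1)
      (fun y z => (y, z, 0)) (fun b => Prod.ext (by simp) (Prod.ext (by simp) (by simp))) (C * s * ρ2 ^ 2)
      (C * s * ρ1 ^ 2) (C * s * (ρ1 * ρ2)) (4 * (μ * s)) _ hD1 hA1 hB1 hr g1 S
      (fun b hb => ⟨fun ψ => ⟨(hS b hb).1.2.2 ψ, (hS b hb).1.1 ψ, (hS b hb).1.2.1 ψ⟩, (hS b hb).2⟩)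
    refine g3.trans ((mul_le_mul_of_nonneg_left (fin_bd (C := C) (ρ2 := ρ2) d hs0 hρ1 hμ
      (hA.trans (hB.trans hD)) (by positivity) (by positivity) (hP _ _ _ (by ring)))
      (by linarith)).trans (le_of_eq (by ring)))
  · obtain ⟨g1, g2⟩ := hE _ hv
    have g3 := h1 φ Q (1, 0, 1) (hlin _) g2 (fun b => b.1) (fun b => b.2.1)
      (fun b => b.2.2 - b.1) (fun y z => (0, y, z)) (fun b => Prod.ext (by simp) (Prod.ext (by simp) (by simp)))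
      (C * s * ρ1 ^ 2) (C * s * (ρ1 * ρ2)) (2 * (C * s * ρ2 ^ 2)) (4 * (μ * s)) _ hA1 hB1
      (by linarith) hr g1 S
      (fun b hb => ⟨fun ψ => ⟨(hS b hb).1.1 ψ, (hS b hb).1.2.1 ψ, by
        have h5 := sz_sub ψ b.2.2 b.1
        have h6 : sz ψ b.2.2 ≤ C * s * ρ2 ^ 2 := (hS b hb).1.2.2 ψ
        have h7 : sz ψ b.1 ≤ C * s * ρ1 ^ 2 := (hS b hb).1.1 ψ
        linarith⟩, (hS b hb).2⟩)
    refine g3.trans ((mul_le_mul_of_nonneg_left (fin_bd (C := C) (ρ2 := ρ2) d hs0 hρ1 hμ hA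
      (by positivity) (by positivity) (le_of_eq (by ring))) (by linarith)).trans
      (le_of_eq (by ring)))

variable {K} in
/-- the directions -/
private theorem dirs (c : T3 K) (φ : K →+* ℂ) :
    (sx φ c ^ 2 ≤ 16 * sz φ (Ec c (1, 0, 0)) ∨ sx φ c ^ 2 ≤ 16 * sz φ (Ec c (0, 1, 0)) ∨
      sx φ c ^ 2 ≤ 16 * sz φ (Ec c (0, 0, 1)) ∨ sx φ c ^ 2 ≤ 16 * sz φ (Ec c (1, 0, 1))) ∧
    (sx φ c ^ 2 ≤ 16 * sz φ (dl c (1, 0, 0)) ∨ sx φ c ^ 2 ≤ 16 * sz φ (dl c (0, 1, 0)) ∨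
      sx φ c ^ 2 ≤ 16 * sz φ (dl c (0, 0, 1)) ∨ sx φ c ^ 2 ≤ 16 * sz φ (dl c (1, 0, 1))) := by
  obtain ⟨m, hm⟩ : ∃ m, m = sx φ c := ⟨_, rfl⟩
  rw [← hm]
  have h1 : sz φ c.1 ≤ m := hm ▸ le_max_left _ _
  have h2 : sz φ c.2.1 ≤ m := hm ▸ (le_max_left _ _).trans (le_max_right _ _)
  have h3 : sz φ c.2.2 ≤ m := hm ▸ (le_max_right _ _).trans (le_max_right _ _)
  have n1 := sz_nonneg φ c.1
  have n2 := sz_nonneg φ c.2.1
  have n3 := sz_nonneg φ c.2.2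
  have hm0 : 0 ≤ m := n1.trans h1
  by_cases hc1 : m ≤ 4 * sz φ c.1
  · have e1 : sz φ (Ec c (0, 0, 1)) = sz φ c.1 ^ 2 := by
      rw [← sz_pow, ← sz_neg]
      congr 1
      simp only [Ec, mx, dt]
      ring
    have e2 : sz φ (dl c (0, 0, 1)) = sz φ c.1 ^ 2 := by
      rw [← sz_pow]
      congr 1
      simp only [dl, mx, dt]
      ring
    have e3 : m ^ 2 ≤ 16 * sz φ c.1 ^ 2 := by nlinarith
    exact ⟨Or.inr (Or.inr (Or.inl (by rw [e1]; exact e3))),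
      Or.inr (Or.inr (Or.inl (by rw [e2]; exact e3)))⟩
  by_cases hc3 : m ≤ 4 * sz φ c.2.2
  · have e1 : sz φ (Ec c (1, 0, 0)) = sz φ c.2.2 ^ 2 := by
      rw [← sz_pow, ← sz_neg]
      congr 1
      simp only [Ec, mx, dt]
      ring
    have e2 : sz φ (dl c (1, 0, 0)) = sz φ c.2.2 ^ 2 := by
      rw [← sz_pow]
      congr 1
      simp only [dl, mx, dt]
      ring
    have e3 : m ^ 2 ≤ 16 * sz φ c.2.2 ^ 2 := by nlinarith
    exact ⟨Or.inl (by rw [e1]; exact e3), Or.inl (by rw [e2]; exact e3)⟩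
  push Not at hc1 hc3
  have hc2 : sz φ c.2.1 = m := by
    have h4 : m = max (sz φ c.1) (max (sz φ c.2.1) (sz φ c.2.2)) := hm
    rcases max_choice (sz φ c.1) (max (sz φ c.2.1) (sz φ c.2.2)) with h5 | h5
    · rw [h5] at h4
      linarith
    · rcases max_choice (sz φ c.2.1) (sz φ c.2.2) with h6 | h6
      · rw [h5, h6] at h4
        exact h4.symm
      · rw [h5, h6] at h4
        linarith
  have hprod : sz φ c.1 * sz φ c.2.2 ≤ m ^ 2 / 16 := by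
    have : sz φ c.1 * sz φ c.2.2 ≤ (m / 4) * (m / 4) :=
      mul_le_mul (by linarith) (by linarith) n3 (by linarith)
    nlinarith
  have h3' : sz φ (3 : 𝓞 K) = 3 := by
    have h5 : ((3 : 𝓞 K) : K) = 3 := by simpa using map_ofNat (algebraMap (𝓞 K) K) 3
    unfold sz
    rw [h5, map_ofNat]
    simp
  have h4' : sz φ (4 : 𝓞 K) = 4 := by
    have h5 : ((4 : 𝓞 K) : K) = 4 := by simpa using map_ofNat (algebraMap (𝓞 K) K) 4
    unfold sz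
    rw [h5, map_ofNat]
    simp
  refine ⟨Or.inr (Or.inl ?_), Or.inr (Or.inr (Or.inr ?_))⟩
  · have e1 : sz φ (3 * c.2.1 ^ 2) ≤ sz φ (Ec c (0, 1, 0)) + sz φ (c.1 * c.2.2) := by
      have e2 : (3 * c.2.1 ^ 2 : 𝓞 K) = -(Ec c (0, 1, 0)) - c.1 * c.2.2 := by
        simp only [Ec, mx, dt]
        ring
      rw [e2]
      refine (sz_sub φ _ _).trans ?_
      rw [sz_neg]
    rw [sz_mul, sz_pow, h3', sz_mul, hc2] at e1
    nlinarith
  · have e1 : sz φ (4 * c.2.1 ^ 2) ≤ sz φ (dl c (1, 0, 1)) + sz φ ((c.1 - c.2.2) ^ 2) := by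
      have e2 : (4 * c.2.1 ^ 2 : 𝓞 K) = dl c (1, 0, 1) - (c.1 - c.2.2) ^ 2 := by
        simp only [dl, mx, dt]
        ring
      rw [e2]
      exact sz_sub φ _ _
    have e3 : sz φ (c.1 - c.2.2) ≤ m / 2 := by
      have := sz_sub φ c.1 c.2.2
      linarith
    have e4 : sz φ (c.1 - c.2.2) ^ 2 ≤ (m / 2) ^ 2 := pow_le_pow_left₀ (sz_nonneg _ _) e3 2
    rw [sz_mul, sz_pow, h4', sz_pow, hc2] at e1
    nlinarith

theorem exb : ExbStmt K := by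
  classical
  intro C hC
  obtain ⟨C1, hC1, h1⟩ := form K hC
  refine ⟨2 * C1, by linarith, ?_⟩
  intro s ρ1 ρ2 μ hs hρ1 hρ12 hsρ hμ _ hμs c φ hc S hS
  have hm : 0 < sx φ c := by
    by_contra hcon
    push Not at hcon
    apply hc
    have g1 : sz φ c.1 ≤ 0 := (le_max_left _ _).trans hcon
    have g2 : sz φ c.2.1 ≤ 0 := ((le_max_left _ _).trans (le_max_right _ _)).trans hcon
    have g3 : sz φ c.2.2 ≤ 0 := ((le_max_right _ _).trans (le_max_right _ _)).trans hcon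
    have h0 : ∀ x : 𝓞 K, sz φ x ≤ 0 → x = 0 := by
      intro x hx
      by_contra h
      have := sz_pos φ h
      linarith
    exact Prod.ext (h0 _ g1) (Prod.ext (h0 _ g2) (h0 _ g3))
  obtain ⟨d1, d2⟩ := dirs c φ
  rw [← Finset.card_filter_add_card_filter_not
    (fun b : T3 K => sz φ (Ec c b) ≤ μ ^ 2 * (s * sx φ c) ^ 2)]
  push_cast
  have g1 := h1 φ (Ec c) (sx φ c) hm (lin_Ec K c) d1 s ρ1 ρ2 μ hs hρ1 hρ12 hsρ hμ hμs
    (S.filter fun b : T3 K => sz φ (Ec c b) ≤ μ ^ 2 * (s * sx φ c) ^ 2) (fun b hb => by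
      obtain ⟨hb1, hb2⟩ := Finset.mem_filter.1 hb
      exact ⟨(hS b hb1).1, hb2⟩)
  have g2 := h1 φ (dl c) (sx φ c) hm (lin_dl K c) d2 s ρ1 ρ2 μ hs hρ1 hρ12 hsρ hμ hμs
    (S.filter fun b : T3 K => ¬ sz φ (Ec c b) ≤ μ ^ 2 * (s * sx φ c) ^ 2) (fun b hb => by
      obtain ⟨hb1, hb2⟩ := Finset.mem_filter.1 hb
      exact ⟨(hS b hb1).1, (hS b hb1).2.resolve_left hb2⟩)
  calc _ ≤ C1 * (s ^ (3 * Module.finrank ℚ K) *
      (ρ1 * ρ2) ^ (3 * Module.finrank ℚ K) * (μ / ρ1 ^ 2)) + C1 * (s ^ (3 * Module.finrank ℚ K) *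
      (ρ1 * ρ2) ^ (3 * Module.finrank ℚ K) * (μ / ρ1 ^ 2)) := add_le_add g1 g2
    _ = _ := by ring

end H86.WB
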