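import Pool.Agent.H86.WB.Los

/-!
# (W1#), chapter SUM: `OlAStmt`, `OlZStmt`, `OdStmt`

`v = vol η`, `e = (s ^ 2) ^ d`, `1 ≤ v e`, so `√v ≤ v ^ θ e ^ (θ - 1 / 2)` for `θ ≥ 1 / 2`, and `v = v ^ θ v ^ (1 - θ)`.
`clsA` (`b₁₁ b₂₂ ≠ 0`, content of norm at least `Y`): `(1 + vol A / Y) v e`. `clsC` (`b₂₂ = 0 ≠ b₁₁`): `√(v e) (C s ρ₁²) ^ d`.
`clsB` (`b₁₁ = 0`): `√(v e) (√(v e) + (C s ρ₂²) ^ d)`.
`Od`: `ρ₂ ≤ C s` follows from `ρ₂² ≤ C / ρ₁ ≤ C s ^ (1 / 100)`. If `|dt b|_φ ≤ s ^ (2 - 1 / 50)` for one `φ` then `v` is smaller by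
`s ^ (-1 / 50)`; if `Y = s ^ (d / 50)` then `vol A / Y` is smaller.
-/

set_option autoImplicit false

namespace H86.WB

open NumberField Finset H88.A4 Pool.Agent.H67.WA H88.WS

private theorem root_le {v e θ : ℝ} (hv : 0 < v) (he : 0 < e) (h1 : 1 ≤ v * e)
    (hθ : 1 / 2 ≤ θ) : Real.sqrt v ≤ v ^ θ * e ^ (θ - 1 / 2) := by
  have e1 : Real.sqrt v = v ^ θ * v ^ (1 / 2 - θ) := by
    rw [← Real.rpow_add hv, Real.sqrt_eq_rpow]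
    congr 1
    ring
  rw [e1]
  refine mul_le_mul_of_nonneg_left ?_ (Real.rpow_nonneg hv.le _)
  have h2 : e⁻¹ ≤ v := by rwa [inv_le_iff_one_le_mul₀ he]
  calc v ^ (1 / 2 - θ) ≤ (e⁻¹) ^ (1 / 2 - θ) :=
        Real.rpow_le_rpow_of_nonpos (by positivity) h2 (by linarith)
    _ = e ^ (θ - 1 / 2) := by
        rw [Real.inv_rpow he.le, ← Real.rpow_neg he.le, neg_sub]

private theorem full_le {v V θ : ℝ} (hv : 0 < v) (hV : v ≤ V) (hθ : θ < 1) :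
    v ≤ v ^ θ * V ^ (1 - θ) := by
  have e1 : v = v ^ θ * v ^ (1 - θ) := by
    rw [← Real.rpow_add hv, add_sub_cancel, Real.rpow_one]
  conv_lhs => rw [e1]
  exact mul_le_mul_of_nonneg_left (Real.rpow_le_rpow hv.le hV (by linarith))
    (Real.rpow_nonneg hv.le _)

variable (K : Type) [Field K] [NumberField K]

/-- the class of sizes `η` -/
private def Cls (s : ℝ) (η : (K →+* ℂ) → ℝ) (b : T3 K) : Prop :=
  ∀ φ, sz φ (dt b) ≤ η φ * s ^ 2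

private theorem clsA {ε : ℝ} (hε : 0 < ε) : ∃ C0 : ℝ, 1 ≤ C0 ∧
    ∀ θ C s ρ1 ρ2 Y V : ℝ, θ < 1 → 1 ≤ C → 1 ≤ C * s → Rho C ρ1 ρ2 → ρ2 ≤ C * s → 0 < Y →
    ∀ η : (K →+* ℂ) → ℝ, (∀ φ, 0 < η φ) → vol η ≤ V → ∀ S : Finset (T3 K),
    (∀ b ∈ S, Bx C s ρ1 ρ2 b ∧ b.1 ≠ 0 ∧ b.2.2 ≠ 0 ∧ dt b ≠ 0 ∧ Cls K s η b ∧ Y ≤ ni (cn b)) →
    ∑ b ∈ S, ni (cn b) ≤ XX C s ^ ε * (C0 * ((1 + (C * s * (ρ1 * ρ2)) ^ Module.finrank ℚ K / Y) *
      ((s ^ 2) ^ Module.finrank ℚ K * V ^ (1 - θ)))) * vol η ^ θ := by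
  obtain ⟨C1, hC1, h1⟩ := nbaY K hε
  refine ⟨C1, hC1, ?_⟩
  intro θ C s ρ1 ρ2 Y V hθ hC hs hρ hρ2 hY η hη hV S hS
  have hC0 : 0 < C := by linarith
  have hs0 : 0 < s := by
    by_contra hcon
    push Not at hcon
    have : C * s ≤ 0 := mul_nonpos_of_nonneg_of_nonpos hC0.le hcon
    linarith
  have hρ10 : 0 < ρ1 := hρ.1
  have hρ20 : 0 < ρ2 := lt_of_lt_of_le hρ10 hρ.2.1
  have hX0 : 0 < XX C s := lt_of_lt_of_le one_pos (one_le_XX hC hs)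
  have hXε : 0 < XX C s ^ ε := Real.rpow_pos_of_pos hX0 _
  have hv : 0 < vol η := vol_pos hη
  have h2 := h1 (XX C s) (one_le_XX hC hs) (fun _ => C * s * (ρ1 * ρ2)) (fun φ => η φ * s ^ 2)
    (fun _ => by positivity) (fun φ => mul_nonneg (hη φ).le (by positivity)) Y hY S
    (fun b hb => by
      obtain ⟨e1, e2, e3, e4, e5, e6⟩ := hS b hb
      exact ⟨e2, e3, e4, fun φ => ⟨(bx_le hC hs hρ hρ2 e1 φ).1, (bx_le hC hs hρ hρ2 e1 φ).2.2.1,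
        e1.2.1 φ, e5 φ⟩, e6⟩)
  rw [vol_const, vol_mul_const] at h2
  refine h2.trans ?_
  have h3 := full_le hv hV hθ
  calc C1 * XX C s ^ ε * ((1 + (C * s * (ρ1 * ρ2)) ^ Module.finrank ℚ K / Y) *
        (vol η * (s ^ 2) ^ Module.finrank ℚ K))
      ≤ C1 * XX C s ^ ε * ((1 + (C * s * (ρ1 * ρ2)) ^ Module.finrank ℚ K / Y) *
        ((vol η ^ θ * V ^ (1 - θ)) * (s ^ 2) ^ Module.finrank ℚ K)) := by
        refine mul_le_mul_of_nonneg_left ?_ (by positivity)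
        refine mul_le_mul_of_nonneg_left ?_ (by positivity)
        exact mul_le_mul_of_nonneg_right h3 (by positivity)
    _ = _ := by ring

private theorem clsC {ε : ℝ} (hε : 0 < ε) : ∃ C0 : ℝ, 1 ≤ C0 ∧
    ∀ θ C s ρ1 ρ2 : ℝ, 1 / 2 ≤ θ → 1 ≤ C → 1 ≤ C * s → Rho C ρ1 ρ2 → ρ2 ≤ C * s →
    ∀ η : (K →+* ℂ) → ℝ, (∀ φ, 0 < η φ) → 1 ≤ vol η * (s ^ 2) ^ Module.finrank ℚ K →
    ∀ S : Finset (T3 K),
    (∀ b ∈ S, Bx C s ρ1 ρ2 b ∧ b.1 ≠ 0 ∧ b.2.2 = 0 ∧ dt b ≠ 0 ∧ Cls K s η b) →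
    ∑ b ∈ S, ni (cn b) ≤ XX C s ^ ε * (C0 * (s ^ Module.finrank ℚ K *
      (C * s * ρ1 ^ 2) ^ Module.finrank ℚ K * ((s ^ 2) ^ Module.finrank ℚ K) ^ (θ - 1 / 2))) *
      vol η ^ θ := by
  obtain ⟨C1, hC1, h1⟩ := nbc K hε
  refine ⟨C1, hC1, ?_⟩
  intro θ C s ρ1 ρ2 hθ hC hs hρ hρ2 η hη h1v S hS
  have hC0 : 0 < C := by linarith
  have hs0 : 0 < s := by
    by_contra hcon
    push Not at hcon
    have : C * s ≤ 0 := mul_nonpos_of_nonneg_of_nonpos hC0.le hcon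
    linarith
  have hρ10 : 0 < ρ1 := hρ.1
  have hX0 : 0 < XX C s := lt_of_lt_of_le one_pos (one_le_XX hC hs)
  have hXε : 0 < XX C s ^ ε := Real.rpow_pos_of_pos hX0 _
  have hv : 0 < vol η := vol_pos hη
  obtain ⟨d, hd⟩ : ∃ d, d = Module.finrank ℚ K := ⟨_, rfl⟩
  rw [← hd] at h1v ⊢
  have he : 0 < (s ^ 2) ^ d := by positivity
  have h2 := h1 (XX C s) (one_le_XX hC hs) (fun _ => C * s * ρ1 ^ 2) (fun φ => η φ * s ^ 2)
    (fun _ => by positivity) (fun φ => mul_nonneg (hη φ).le (by positivity)) S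
    (fun b hb => by
      obtain ⟨e1, e2, e3, e4, e5⟩ := hS b hb
      exact ⟨e3, e2, e4, fun φ => ⟨(bx_le hC hs hρ hρ2 e1 φ).2.1, e1.1 φ, e5 φ⟩⟩)
  rw [vol_const, vol_mul_const, ← hd, Real.sqrt_mul hv.le] at h2
  have hse : Real.sqrt ((s ^ 2) ^ d) = s ^ d := by
    rw [← pow_mul, mul_comm 2 d, pow_mul, Real.sqrt_sq (by positivity)]
  rw [hse] at h2
  refine h2.trans ?_
  have h3 := root_le hv he h1v hθ
  calc C1 * XX C s ^ ε * (Real.sqrt (vol η) * s ^ d * (C * s * ρ1 ^ 2) ^ d)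
      ≤ C1 * XX C s ^ ε * ((vol η ^ θ * ((s ^ 2) ^ d) ^ (θ - 1 / 2)) * s ^ d *
        (C * s * ρ1 ^ 2) ^ d) := by
        refine mul_le_mul_of_nonneg_left ?_ (by positivity)
        refine mul_le_mul_of_nonneg_right ?_ (by positivity)
        exact mul_le_mul_of_nonneg_right h3 (by positivity)
    _ = _ := by ring

private theorem clsB {ε : ℝ} (hε : 0 < ε) : ∃ C0 : ℝ, 1 ≤ C0 ∧
    ∀ θ C s ρ1 ρ2 V : ℝ, 1 / 2 ≤ θ → θ < 1 → 1 ≤ C → 1 ≤ C * s → Rho C ρ1 ρ2 → ρ2 ≤ C * s →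
    ∀ η : (K →+* ℂ) → ℝ, (∀ φ, 0 < η φ) → 1 ≤ vol η * (s ^ 2) ^ Module.finrank ℚ K →
    vol η ≤ V → ∀ S : Finset (T3 K),
    (∀ b ∈ S, Bx C s ρ1 ρ2 b ∧ b.1 = 0 ∧ dt b ≠ 0 ∧ Cls K s η b) →
    ∑ b ∈ S, ni (cn b) ≤ XX C s ^ ε * (C0 * ((s ^ 2) ^ Module.finrank ℚ K * V ^ (1 - θ) +
      s ^ Module.finrank ℚ K *
      (C * s * ρ2 ^ 2) ^ Module.finrank ℚ K * ((s ^ 2) ^ Module.finrank ℚ K) ^ (θ - 1 / 2))) *
      vol η ^ θ := by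
  obtain ⟨C1, hC1, h1⟩ := nbb K hε
  refine ⟨C1, hC1, ?_⟩
  intro θ C s ρ1 ρ2 V hθ hθ1 hC hs hρ hρ2 η hη h1v hV S hS
  have hC0 : 0 < C := by linarith
  have hs0 : 0 < s := by
    by_contra hcon
    push Not at hcon
    have : C * s ≤ 0 := mul_nonpos_of_nonneg_of_nonpos hC0.le hcon
    linarith
  have hρ10 : 0 < ρ1 := hρ.1
  have hρ20 : 0 < ρ2 := lt_of_lt_of_le hρ10 hρ.2.1
  have hX0 : 0 < XX C s := lt_of_lt_of_le one_pos (one_le_XX hC hs)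
  have hXε : 0 < XX C s ^ ε := Real.rpow_pos_of_pos hX0 _
  have hv : 0 < vol η := vol_pos hη
  obtain ⟨d, hd⟩ : ∃ d, d = Module.finrank ℚ K := ⟨_, rfl⟩
  rw [← hd] at h1v ⊢
  have he : 0 < (s ^ 2) ^ d := by positivity
  have h2 := h1 (XX C s) (one_le_XX hC hs) (fun _ => C * s * ρ2 ^ 2) (fun φ => η φ * s ^ 2)
    (fun _ => by positivity) (fun φ => mul_nonneg (hη φ).le (by positivity)) S
    (fun b hb => by
      obtain ⟨e1, e2, e3, e4⟩ := hS b hb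
      exact ⟨e2, e3, fun φ => ⟨(bx_le hC hs hρ hρ2 e1 φ).2.1, e1.2.2 φ, e4 φ⟩⟩)
  rw [vol_const, vol_mul_const, ← hd, Real.sqrt_mul hv.le] at h2
  have hse : Real.sqrt ((s ^ 2) ^ d) = s ^ d := by
    rw [← pow_mul, mul_comm 2 d, pow_mul, Real.sqrt_sq (by positivity)]
  rw [hse] at h2
  refine h2.trans ?_
  have h3 := root_le hv he h1v hθ
  have h4 := full_le hv hV hθ1
  have h5 : Real.sqrt (vol η) * s ^ d * (Real.sqrt (vol η) * s ^ d + (C * s * ρ2 ^ 2) ^ d) =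
      vol η * (s ^ 2) ^ d + Real.sqrt (vol η) * s ^ d * (C * s * ρ2 ^ 2) ^ d := by
    have e1 : Real.sqrt (vol η) * s ^ d * (Real.sqrt (vol η) * s ^ d) = vol η * (s ^ 2) ^ d := by
      calc _ = (Real.sqrt (vol η) * Real.sqrt (vol η)) * (s ^ d * s ^ d) := by ring
        _ = vol η * (s ^ 2) ^ d := by
            rw [Real.mul_self_sqrt hv.le, ← mul_pow, ← pow_two]
    rw [mul_add, e1]
  rw [h5]
  calc C1 * XX C s ^ ε * (vol η * (s ^ 2) ^ d +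
        Real.sqrt (vol η) * s ^ d * (C * s * ρ2 ^ 2) ^ d)
      ≤ C1 * XX C s ^ ε * ((vol η ^ θ * V ^ (1 - θ)) * (s ^ 2) ^ d +
        (vol η ^ θ * ((s ^ 2) ^ d) ^ (θ - 1 / 2)) * s ^ d * (C * s * ρ2 ^ 2) ^ d) := by
        refine mul_le_mul_of_nonneg_left ?_ (by positivity)
        refine add_le_add (mul_le_mul_of_nonneg_right h4 he.le) ?_
        refine mul_le_mul_of_nonneg_right ?_ (by positivity)
        exact mul_le_mul_of_nonneg_right h3 (by positivity)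
    _ = _ := by ring

private theorem spow {s : ℝ} (hs : 0 < s) (θ : ℝ) (d : ℕ) :
    s ^ d * s ^ d * ((s ^ 2) ^ d) ^ (θ - 1 / 2) = s ^ ((1 + 2 * θ) * (d : ℝ)) := by
  rw [← Real.rpow_natCast (s ^ 2) d, ← Real.rpow_natCast s 2, ← Real.rpow_mul hs.le,
    ← Real.rpow_mul hs.le, ← Real.rpow_natCast s d, ← Real.rpow_add hs, ← Real.rpow_add hs]
  congr 1
  push_cast
  ring

private theorem ppow {p : ℝ} (hp : 0 < p) (θ : ℝ) (d : ℕ) :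
    p ^ d * ((p ^ 2) ^ d) ^ (1 - θ) = p ^ ((3 - 2 * θ) * (d : ℝ)) := by
  rw [← Real.rpow_natCast (p ^ 2) d, ← Real.rpow_natCast p 2, ← Real.rpow_mul hp.le,
    ← Real.rpow_mul hp.le, ← Real.rpow_natCast p d, ← Real.rpow_add hp]
  congr 1
  push_cast
  ring

variable {K} in
private theorem s_pos {C s : ℝ} (hC : 1 ≤ C) (hs : 1 ≤ C * s) : 0 < s := by
  by_contra hcon
  push Not at hcon
  have : C * s ≤ 0 := mul_nonpos_of_nonneg_of_nonpos (by linarith) hcon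
  linarith

variable {K} in
private theorem vol_le_pow {η : (K →+* ℂ) → ℝ} {B : ℝ} (h : ∀ φ, 0 < η φ ∧ η φ ≤ B) :
    vol η ≤ B ^ Module.finrank ℚ K := by
  rw [← vol_const (K := K) B]
  exact vol_mono (fun φ => (h φ).1.le) fun φ => (h φ).2

variable {K} in
/-- for a nonempty box with `b₁ ≠ 0` -/
private theorem box_low {C s ρ1 ρ2 : ℝ} (hC : 1 ≤ C) (hs : 0 < s) (hρ : Rho C ρ1 ρ2) {b : T3 K}
    (hb : Bx C s ρ1 ρ2 b) (h0 : b.1 ≠ 0) :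
    1 ≤ (C * s * (ρ1 * ρ2)) ^ Module.finrank ℚ K := by
  have h1 := (one_le_nz h0).trans (nz_le_vol (R := fun _ => C * s * ρ1 ^ 2) fun φ => hb.1 φ)
  rw [vol_const] at h1
  refine h1.trans (pow_le_pow_left₀ (by have := hρ.1; positivity) ?_ _)
  refine mul_le_mul_of_nonneg_left ?_ (by positivity)
  rw [pow_two]
  exact mul_le_mul_of_nonneg_left hρ.2.1 hρ.1.le

/-- the part `b₂₂ = 0` -/
private theorem partC {θ : ℝ} (hθ : 1 / 2 ≤ θ) {C : ℝ} (hC : 1 ≤ C) {ε : ℝ}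
    (hε : 0 < ε) : ∃ C' : ℝ, 1 ≤ C' ∧ ∀ s ρ1 ρ2 : ℝ, 1 ≤ C * s → Rho C ρ1 ρ2 → ρ2 ≤ C * s →
    ∀ S : Finset (T3 K), (∀ b ∈ S, Bx C s ρ1 ρ2 b ∧ b.1 ≠ 0 ∧ b.2.2 = 0 ∧ dt b ≠ 0) →
    ∑ b ∈ S, ni (cn b) * Wt θ s b ≤ C' * s ^ ε *
      (s ^ ((1 + 2 * θ) * (Module.finrank ℚ K : ℝ)) * ρ1 ^ (2 * Module.finrank ℚ K)) := by
  obtain ⟨C1, hC1, h1⟩ := loss K (θ := θ) (by linarith) hε hC
  obtain ⟨C2, hC2, h2⟩ := clsC K (ε := ε / 6) (by positivity)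
  obtain ⟨d, hd⟩ : ∃ d, d = Module.finrank ℚ K := ⟨_, rfl⟩
  rw [← hd] at h1 h2 ⊢
  refine ⟨C1 * (C2 * C ^ d), one_le_mul_of_one_le_of_one_le hC1
    (one_le_mul_of_one_le_of_one_le hC2 (one_le_pow₀ hC)), ?_⟩
  intro s ρ1 ρ2 hs hρ hρ2 S hS
  have hs0 := s_pos hC hs
  have hρ10 : 0 < ρ1 := hρ.1
  have h3 := h1 s ρ1 ρ2 hs hρ hρ2 S (C2 * (s ^ d * (C * s * ρ1 ^ 2) ^ d *
    ((s ^ 2) ^ d) ^ (θ - 1 / 2))) (by positivity) (fun b hb => ⟨(hS b hb).1, (hS b hb).2.2.2⟩)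
    (fun η hη hv S' hS' _ hc => h2 θ C s ρ1 ρ2 hθ hC hs hρ hρ2 η (fun φ => (hη φ).1) hv S'
      fun b hb => by
        obtain ⟨e1, e2, e3, e4⟩ := hS b (hS' hb)
        exact ⟨e1, e2, e3, e4, fun φ => (hc b hb φ).1⟩)
  refine h3.trans (le_of_eq ?_)
  rw [← spow hs0 θ d]
  have e1 : (C * s * ρ1 ^ 2) ^ d = C ^ d * s ^ d * ρ1 ^ (2 * d) := by
    rw [mul_pow, mul_pow, ← pow_mul]
  rw [e1]
  ring

theorem ola : OlAStmt K := by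
  classical
  intro θ hθ hθ1 C hC ε hε
  obtain ⟨C1, hC1, h1⟩ := loss K (θ := θ) (by linarith) hε hC
  obtain ⟨C2, hC2, h2⟩ := clsA K (ε := ε / 6) (by positivity)
  obtain ⟨C3, hC3, h3⟩ := partC K hθ hC hε
  obtain ⟨d, hd⟩ : ∃ d, d = Module.finrank ℚ K := ⟨_, rfl⟩
  rw [← hd] at h1 h2 h3 ⊢
  obtain ⟨A1, hA1⟩ : ∃ A1 : ℝ, A1 = C1 * (C2 * (2 * C ^ d * ((4 * C ^ 2) ^ d) ^ (1 - θ))) :=
    ⟨_, rfl⟩
  have hA1p : 0 < A1 := by
    rw [hA1]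
    have : 0 < ((4 * C ^ 2) ^ d) ^ (1 - θ) := Real.rpow_pos_of_pos (by positivity) _
    positivity
  refine ⟨A1 + C3, by linarith, ?_⟩
  intro s ρ1 ρ2 hs hρ hρ2 S hS
  have hs0 := s_pos hC hs
  have hρ10 : 0 < ρ1 := hρ.1
  have hρ20 : 0 < ρ2 := lt_of_lt_of_le hρ10 hρ.2.1
  obtain ⟨p, hp⟩ : ∃ p, p = ρ1 * ρ2 := ⟨_, rfl⟩
  have hp0 : 0 < p := hp ▸ mul_pos hρ10 hρ20
  have hsε : 0 < s ^ ε := Real.rpow_pos_of_pos hs0 _
  have hT1 : 0 ≤ s ^ (3 * d) * p ^ ((3 - 2 * θ) * (d : ℝ)) :=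
    mul_nonneg (by positivity) (Real.rpow_nonneg hp0.le _)
  have hT2 : 0 ≤ s ^ ((1 + 2 * θ) * (d : ℝ)) * ρ1 ^ (2 * d) :=
    mul_nonneg (Real.rpow_nonneg hs0.le _) (by positivity)
  rw [← hp]
  rw [← Finset.sum_filter_add_sum_filter_not S (fun b : T3 K => b.2.2 ≠ 0)]
  have hb1 : ∑ b ∈ S with b.2.2 ≠ 0, ni (cn b) * Wt θ s b ≤
      A1 * s ^ ε * (s ^ (3 * d) * p ^ ((3 - 2 * θ) * (d : ℝ))) := by
    rcases (S.filter fun b => b.2.2 ≠ 0).eq_empty_or_nonempty with he | ⟨b0, hb0⟩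
    · rw [he, Finset.sum_empty]
      positivity
    have hlow : 1 ≤ (C * s * p) ^ d := by
      have hb0S := (Finset.mem_filter.1 hb0).1
      rw [hp, hd]
      exact box_low hC hs0 hρ (hS b0 hb0S).1 (hS b0 hb0S).2.1
    have hVp : 0 ≤ ((4 * C ^ 2 * p ^ 2) ^ d) ^ (1 - θ) := Real.rpow_nonneg (by positivity) _
    have h4 := h1 s ρ1 ρ2 hs hρ hρ2 (S.filter fun b => b.2.2 ≠ 0)
      (C2 * ((1 + (C * s * (ρ1 * ρ2)) ^ d / 1) *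
        ((s ^ 2) ^ d * ((4 * C ^ 2 * p ^ 2) ^ d) ^ (1 - θ)))) (by positivity)
      (fun b hb => by
        have hbS := (Finset.mem_filter.1 hb).1
        exact ⟨(hS b hbS).1, (hS b hbS).2.2⟩)
      (fun η hη hv S' hS' _ hc => h2 θ C s ρ1 ρ2 1 ((4 * C ^ 2 * p ^ 2) ^ d) hθ1 hC hs hρ hρ2
        one_pos η (fun φ => (hη φ).1) (by
          rw [hp, hd]
          exact vol_le_pow hη) S'
        fun b hb => by
          obtain ⟨hbS, hb3⟩ := Finset.mem_filter.1 (hS' hb)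
          obtain ⟨e1, e2, e3⟩ := hS b hbS
          exact ⟨e1, e2, hb3, e3, fun φ => (hc b hb φ).1, one_le_ni (cn_ne e3)⟩)
    refine h4.trans ?_
    rw [← hp, div_one]
    have e1 : ((4 * C ^ 2 * p ^ 2) ^ d) ^ (1 - θ) =
        ((4 * C ^ 2) ^ d) ^ (1 - θ) * ((p ^ 2) ^ d) ^ (1 - θ) := by
      rw [mul_pow (4 * C ^ 2), Real.mul_rpow (by positivity) (by positivity)]
    have e2 : s ^ (3 * d) = (s ^ 2) ^ d * s ^ d := by
      rw [← mul_pow, ← pow_succ, ← pow_mul]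
    have hpp : 0 ≤ ((p ^ 2) ^ d) ^ (1 - θ) := Real.rpow_nonneg (by positivity) _
    have hcc : 0 ≤ ((4 * C ^ 2) ^ d) ^ (1 - θ) := Real.rpow_nonneg (by positivity) _
    calc C1 * s ^ ε * (C2 * ((1 + (C * s * p) ^ d) *
          ((s ^ 2) ^ d * ((4 * C ^ 2 * p ^ 2) ^ d) ^ (1 - θ))))
        ≤ C1 * s ^ ε * (C2 * ((2 * (C * s * p) ^ d) *
          ((s ^ 2) ^ d * ((4 * C ^ 2 * p ^ 2) ^ d) ^ (1 - θ)))) := by
          refine mul_le_mul_of_nonneg_left ?_ (by positivity)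
          refine mul_le_mul_of_nonneg_left ?_ (by positivity)
          refine mul_le_mul_of_nonneg_right ?_ (by positivity)
          linarith
      _ = _ := by
          rw [e1, e2, ← ppow hp0, hA1, mul_pow, mul_pow]
          ring
  have hb2 := h3 s ρ1 ρ2 hs hρ hρ2 (S.filter fun b => ¬ b.2.2 ≠ 0) (fun b hb => by
    obtain ⟨hbS, hb3⟩ := Finset.mem_filter.1 hb
    obtain ⟨e1, e2, e3⟩ := hS b hbS
    exact ⟨e1, e2, not_not.1 hb3, e3⟩)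
  calc _ ≤ A1 * s ^ ε * (s ^ (3 * d) * p ^ ((3 - 2 * θ) * (d : ℝ))) +
        C3 * s ^ ε * (s ^ ((1 + 2 * θ) * (d : ℝ)) * ρ1 ^ (2 * d)) := add_le_add hb1 hb2
    _ ≤ (A1 + C3) * s ^ ε * (s ^ (3 * d) * p ^ ((3 - 2 * θ) * (d : ℝ))) +
        (A1 + C3) * s ^ ε * (s ^ ((1 + 2 * θ) * (d : ℝ)) * ρ1 ^ (2 * d)) := by
        refine add_le_add (mul_le_mul_of_nonneg_right ?_ hT1) (mul_le_mul_of_nonneg_right ?_ hT2)
        · exact mul_le_mul_of_nonneg_right (by linarith) hsε.le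
        · exact mul_le_mul_of_nonneg_right (by linarith) hsε.le
    _ = _ := by ring

theorem olz : OlZStmt K := by
  classical
  intro θ hθ hθ1 C hC ε hε
  obtain ⟨C1, hC1, h1⟩ := loss K (θ := θ) (by linarith) hε hC
  obtain ⟨C2, hC2, h2⟩ := clsB K (ε := ε / 6) (by positivity)
  obtain ⟨d, hd⟩ : ∃ d, d = Module.finrank ℚ K := ⟨_, rfl⟩
  rw [← hd] at h1 h2 ⊢
  have hcc : 1 ≤ ((4 * C ^ 2 * C ^ 2) ^ d) ^ (1 - θ) := by
    refine Real.one_le_rpow (one_le_pow₀ ?_) (by linarith)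
    have : 1 ≤ C ^ 2 := one_le_pow₀ hC
    nlinarith
  have hCd : 1 ≤ C ^ d := one_le_pow₀ hC
  refine ⟨C1 * (C2 * (((4 * C ^ 2 * C ^ 2) ^ d) ^ (1 - θ) + C ^ d)), by positivity, ?_⟩
  intro s ρ1 ρ2 hs hρ hρ2 S hS
  have hs0 := s_pos hC hs
  have hρ10 : 0 < ρ1 := hρ.1
  have hρ20 : 0 < ρ2 := lt_of_lt_of_le hρ10 hρ.2.1
  have hp := rho_prod hC hρ
  have hsε : 0 < s ^ ε := Real.rpow_pos_of_pos hs0 _
  have h4 := h1 s ρ1 ρ2 hs hρ hρ2 S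
    (C2 * ((s ^ 2) ^ d * ((4 * C ^ 2 * C ^ 2) ^ d) ^ (1 - θ) + s ^ d * (C * s * ρ2 ^ 2) ^ d *
      ((s ^ 2) ^ d) ^ (θ - 1 / 2))) (by positivity)
    (fun b hb => ⟨(hS b hb).1, (hS b hb).2.2⟩)
    (fun η hη hv S' hS' _ hc => h2 θ C s ρ1 ρ2 ((4 * C ^ 2 * C ^ 2) ^ d) hθ hθ1 hC hs hρ hρ2
      η (fun φ => (hη φ).1) hv (by
        rw [hd]
        refine vol_le_pow fun φ => ⟨(hη φ).1, (hη φ).2.trans ?_⟩
        refine mul_le_mul_of_nonneg_left ?_ (by positivity)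
        exact pow_le_pow_left₀ (by positivity) hp 2) S'
      fun b hb => by
        obtain ⟨e1, e2, e3⟩ := hS b (hS' hb)
        exact ⟨e1, e2, e3, fun φ => (hc b hb φ).1⟩)
  refine h4.trans ?_
  rw [← spow hs0 θ d]
  have e1 : (C * s * ρ2 ^ 2) ^ d = C ^ d * s ^ d * ρ2 ^ (2 * d) := by
    rw [mul_pow, mul_pow, ← pow_mul]
  have e2 : (s ^ 2) ^ d = s ^ (2 * d) := by rw [← pow_mul]
  have hst : 0 ≤ ((s ^ 2) ^ d) ^ (θ - 1 / 2) := Real.rpow_nonneg (by positivity) _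
  obtain ⟨W, hW⟩ : ∃ W, W = s ^ d * s ^ d * ((s ^ 2) ^ d) ^ (θ - 1 / 2) * ρ2 ^ (2 * d) := ⟨_, rfl⟩
  have hW0 : 0 ≤ W := by
    rw [hW]
    positivity
  obtain ⟨V, hV⟩ : ∃ V, V = s ^ (2 * d) := ⟨_, rfl⟩
  have hV0 : 0 ≤ V := by
    rw [hV]
    positivity
  obtain ⟨Q, hQ⟩ : ∃ Q, Q = ((4 * C ^ 2 * C ^ 2) ^ d) ^ (1 - θ) := ⟨_, rfl⟩
  rw [← hQ] at hcc
  calc C1 * s ^ ε * (C2 * ((s ^ 2) ^ d * ((4 * C ^ 2 * C ^ 2) ^ d) ^ (1 - θ) +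
        s ^ d * (C * s * ρ2 ^ 2) ^ d * ((s ^ 2) ^ d) ^ (θ - 1 / 2)))
      = C1 * s ^ ε * C2 * (V * Q + C ^ d * W) := by
        rw [e1, hW, hV, hQ, ← e2]
        ring
    _ ≤ C1 * s ^ ε * C2 * (V * (Q + C ^ d) + (Q + C ^ d) * W) := by
        refine mul_le_mul_of_nonneg_left ?_ (by positivity)
        refine add_le_add (mul_le_mul_of_nonneg_left (by linarith) hV0)
          (mul_le_mul_of_nonneg_right (by linarith) hW0)
    _ = _ := by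
        rw [hV, hQ, hW]
        ring

variable {K} in
/-- one small size makes the volume small -/
private theorem vol_one_small {η : (K →+* ℂ) → ℝ} {B a : ℝ} (h : ∀ φ, 0 < η φ ∧ η φ ≤ B)
    (φ0 : K →+* ℂ) (h0 : η φ0 ≤ a * B) : vol η ≤ a * B ^ Module.finrank ℚ K := by
  classical
  have e1 : B ^ Module.finrank ℚ K = B * ∏ ψ ∈ Finset.univ.erase φ0, B := by
    rw [Finset.mul_prod_erase (s := (Finset.univ : Finset (K →+* ℂ))) (a := φ0)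
      (fun ψ => B) (Finset.mem_univ φ0)]
    exact (vol_const (K := K) B).symm
  have e2 : ∏ ψ ∈ Finset.univ.erase φ0, η ψ ≤ ∏ ψ ∈ Finset.univ.erase φ0, B :=
    Finset.prod_le_prod (fun ψ _ => (h ψ).1.le) fun ψ _ => (h ψ).2
  rw [vol, ← Finset.mul_prod_erase _ _ (Finset.mem_univ φ0), e1, ← mul_assoc]
  exact mul_le_mul h0 e2 (Finset.prod_nonneg fun ψ _ => (h ψ).1.le) ((h φ0).1.le.trans h0)

theorem od : OdStmt K := by
  classical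
  intro θ hθ hθ1 C hC
  obtain ⟨κ, hκ⟩ : ∃ κ : ℝ, κ = (1 - θ) / 100 := ⟨_, rfl⟩
  have hκ0 : 0 < κ := by
    rw [hκ]
    linarith
  obtain ⟨C1, hC1, h1⟩ := loss K (θ := θ) (by linarith) hκ0 hC
  obtain ⟨C2, hC2, h2⟩ := clsA K (ε := κ / 6) (by positivity)
  obtain ⟨C3, hC3, h3⟩ := partC K hθ hC hκ0
  obtain ⟨d, hd⟩ : ∃ d, d = Module.finrank ℚ K := ⟨_, rfl⟩
  have hd1 : (1 : ℝ) ≤ d := by
    rw [hd]
    exact_mod_cast (Module.finrank_pos : 0 < Module.finrank ℚ K)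
  have hvs := fun (η : (K →+* ℂ) → ℝ) (B a : ℝ) => vol_one_small (η := η) (B := B) (a := a)
  have hvp := fun (η : (K →+* ℂ) → ℝ) (B : ℝ) => vol_le_pow (η := η) (B := B)
  rw [← hd] at h1 h2 h3 hvs hvp ⊢
  have hCd : 1 ≤ C ^ d := one_le_pow₀ hC
  have hC0 : 0 < C := by linarith
  obtain ⟨B, hB⟩ : ∃ B, B = 4 * C ^ 2 * C ^ 2 := ⟨_, rfl⟩
  have hB2 : 2 ≤ B := by
    rw [hB]
    have : 1 ≤ C ^ 2 := one_le_pow₀ hC
    nlinarith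
  have hB0 : 0 < B := by linarith
  obtain ⟨Q, hQ⟩ : ∃ Q, Q = (B ^ d) ^ (1 - θ) := ⟨_, rfl⟩
  have hQ0 : 0 < Q := by
    rw [hQ]
    exact Real.rpow_pos_of_pos (by positivity) _
  obtain ⟨A1, hA1⟩ : ∃ A1 : ℝ, A1 = C1 * (C2 * (2 * (C ^ 2) ^ d * Q)) := ⟨_, rfl⟩
  have hA1p : 0 < A1 := by
    rw [hA1]
    positivity
  refine ⟨A1 + A1 + C3 * C ^ (2 * d), κ, by positivity, hκ0, ?_⟩
  intro s ρ1 ρ2 hs1 hρ hρ1s S hS
  have hs : 1 ≤ C * s := one_le_mul_of_one_le_of_one_le hC hs1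
  have hs0 : 0 < s := by linarith
  have hρ10 : 0 < ρ1 := hρ.1
  have hρ20 : 0 < ρ2 := lt_of_lt_of_le hρ10 hρ.2.1
  have hpC := rho_prod hC hρ
  have hexp : ∀ x y : ℝ, x ≤ y → s ^ x ≤ s ^ y := fun x y h =>
    Real.rpow_le_rpow_of_exponent_le hs1 h
  have hρ2 : ρ2 ≤ C * s := by
    have h4 : s⁻¹ ≤ ρ1 := by
      refine le_trans ?_ hρ1s
      rw [← Real.rpow_neg_one]
      exact hexp _ _ (by norm_num)
    have h5 : ρ2 ^ 2 ≤ C * s := by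
      have h6 : ρ2 ^ 2 * s⁻¹ ≤ C := by
        calc ρ2 ^ 2 * s⁻¹ ≤ ρ2 ^ 2 * ρ1 := mul_le_mul_of_nonneg_left h4 (by positivity)
          _ = ρ1 * ρ2 ^ 2 := mul_comm _ _
          _ ≤ C := hρ.2.2.2
      rw [← div_eq_mul_inv, div_le_iff₀ hs0] at h6
      exact h6
    refine (pow_le_pow_iff_left₀ hρ20.le (by positivity) two_ne_zero).1 ?_
    refine h5.trans ?_
    nlinarith
  have hsκ : 0 < s ^ κ := Real.rpow_pos_of_pos hs0 _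
  have hbox : (C * s * (ρ1 * ρ2)) ^ d ≤ (C ^ 2) ^ d * s ^ d := by
    rw [← mul_pow]
    refine pow_le_pow_left₀ (by positivity) ?_ d
    calc C * s * (ρ1 * ρ2) ≤ C * s * C := mul_le_mul_of_nonneg_left hpC (by positivity)
      _ = C ^ 2 * s := by ring
  have hηB : ∀ η : (K →+* ℂ) → ℝ, (∀ φ, 0 < η φ ∧ η φ ≤ 4 * C ^ 2 * (ρ1 * ρ2) ^ 2) →
      ∀ φ, 0 < η φ ∧ η φ ≤ B := by
    intro η hη φ
    refine ⟨(hη φ).1, (hη φ).2.trans ?_⟩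
    rw [hB]
    refine mul_le_mul_of_nonneg_left ?_ (by positivity)
    exact pow_le_pow_left₀ (by positivity) hpC 2
  have hs2d : (s ^ 2) ^ d = s ^ (2 * (d : ℝ)) := by
    rw [← Real.rpow_natCast (s ^ 2) d, ← Real.rpow_natCast s 2, ← Real.rpow_mul hs0.le]
    norm_num
  have hCd2 : 1 ≤ (C ^ 2) ^ d := one_le_pow₀ (one_le_pow₀ hC)
  -- the three parts
  have hpart1 : ∀ S' ⊆ S, (∀ b ∈ S', b.2.2 ≠ 0 ∧ ∃ φ : K →+* ℂ, sz φ (dt b) ≤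
      s ^ (2 - 1 / 50 : ℝ)) → ∑ b ∈ S', ni (cn b) * Wt θ s b ≤
      A1 * s ^ (3 * (d : ℝ) - κ) := by
    intro S1 hS1 hp1
    obtain ⟨V, hV⟩ : ∃ V, V = s ^ (-(1 / 50) : ℝ) * B ^ d := ⟨_, rfl⟩
    have hV0 : 0 < V := by
      rw [hV]
      have : 0 < s ^ (-(1 / 50) : ℝ) := Real.rpow_pos_of_pos hs0 _
      positivity
    have hVθ : V ^ (1 - θ) = s ^ (-(2 * κ)) * Q := by
      rw [hV, Real.mul_rpow (Real.rpow_nonneg hs0.le _) (by positivity), ← Real.rpow_mul hs0.le,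
        hQ, hκ]
      congr 2
      ring
    have h4 := h1 s ρ1 ρ2 hs hρ hρ2 S1
      (C2 * ((1 + (C * s * (ρ1 * ρ2)) ^ d / 1) * ((s ^ 2) ^ d * V ^ (1 - θ))))
      (by
        have := Real.rpow_nonneg hV0.le (1 - θ)
        positivity)
      (fun b hb => ⟨(hS b (hS1 hb)).1, (hS b (hS1 hb)).2.2.1⟩)
      (fun η hη hv S' hS' hne hc => h2 θ C s ρ1 ρ2 1 V hθ1 hC hs hρ hρ2
        one_pos η (fun φ => (hη φ).1) (by
          obtain ⟨b0, hb0⟩ := hne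
          obtain ⟨-, φ0, hφ0⟩ := hp1 b0 (hS' hb0)
          rw [hV]
          refine hvs η B _ (hηB η hη) φ0 ((hc b0 hb0 φ0).2.trans ?_)
          have e1 : sz φ0 (dt b0) / s ^ 2 ≤ s ^ (-(1 / 50) : ℝ) := by
            rw [div_le_iff₀ (by positivity)]
            refine hφ0.trans (le_of_eq ?_)
            rw [← Real.rpow_natCast s 2, ← Real.rpow_add hs0]
            congr 1
            norm_num
          have e2 : 0 < s ^ (-(1 / 50) : ℝ) := Real.rpow_pos_of_pos hs0 _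
          nlinarith) S'
        fun b hb => by
          obtain ⟨e1, e2, e3, -⟩ := hS b (hS1 (hS' hb))
          exact ⟨e1, e2, (hp1 b (hS' hb)).1, e3, fun φ => (hc b hb φ).1, one_le_ni (cn_ne e3)⟩)
    refine h4.trans ?_
    rw [div_one, hVθ, hs2d]
    have hsd1 : 1 ≤ s ^ d := one_le_pow₀ hs1
    calc C1 * s ^ κ * (C2 * ((1 + (C * s * (ρ1 * ρ2)) ^ d) *
          (s ^ (2 * (d : ℝ)) * (s ^ (-(2 * κ)) * Q))))
        ≤ C1 * s ^ κ * (C2 * ((2 * ((C ^ 2) ^ d * s ^ d)) *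
          (s ^ (2 * (d : ℝ)) * (s ^ (-(2 * κ)) * Q)))) := by
          refine mul_le_mul_of_nonneg_left ?_ (by positivity)
          refine mul_le_mul_of_nonneg_left ?_ (by positivity)
          refine mul_le_mul_of_nonneg_right ?_ (by positivity)
          have : 1 ≤ (C ^ 2) ^ d * s ^ d := one_le_mul_of_one_le_of_one_le hCd2 hsd1
          linarith
      _ = A1 * (s ^ κ * s ^ (d : ℝ) * s ^ (2 * (d : ℝ)) * s ^ (-(2 * κ))) := by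
          rw [hA1, Real.rpow_natCast]
          ring
      _ = A1 * s ^ (3 * (d : ℝ) - κ) := by
          rw [← Real.rpow_add hs0, ← Real.rpow_add hs0, ← Real.rpow_add hs0]
          congr 2
          ring
  have hpart2 : ∀ S' ⊆ S, (∀ b ∈ S', b.2.2 ≠ 0 ∧ s ^ ((d : ℝ) / 50) ≤ ni (cn b)) →
      ∑ b ∈ S', ni (cn b) * Wt θ s b ≤ A1 * s ^ (3 * (d : ℝ) - κ) := by
    intro S1 hS1 hp1
    obtain ⟨Y, hY⟩ : ∃ Y, Y = s ^ ((d : ℝ) / 50) := ⟨_, rfl⟩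
    have hY0 : 0 < Y := by
      rw [hY]
      exact Real.rpow_pos_of_pos hs0 _
    have h4 := h1 s ρ1 ρ2 hs hρ hρ2 S1
      (C2 * ((1 + (C * s * (ρ1 * ρ2)) ^ d / Y) * ((s ^ 2) ^ d * (B ^ d) ^ (1 - θ))))
      (by
        rw [← hQ]
        positivity)
      (fun b hb => ⟨(hS b (hS1 hb)).1, (hS b (hS1 hb)).2.2.1⟩)
      (fun η hη hv S' hS' hne hc => h2 θ C s ρ1 ρ2 Y (B ^ d) hθ1 hC hs hρ hρ2
        hY0 η (fun φ => (hη φ).1) (hvp η B (hηB η hη)) S'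
        fun b hb => by
          obtain ⟨e1, e2, e3, -⟩ := hS b (hS1 (hS' hb))
          exact ⟨e1, e2, (hp1 b (hS' hb)).1, e3, fun φ => (hc b hb φ).1,
            hY ▸ (hp1 b (hS' hb)).2⟩)
    refine h4.trans ?_
    rw [← hQ, hs2d]
    have e1 : (C * s * (ρ1 * ρ2)) ^ d / Y ≤ (C ^ 2) ^ d * s ^ ((d : ℝ) - (d : ℝ) / 50) := by
      rw [Real.rpow_sub hs0, ← hY, Real.rpow_natCast, ← mul_div_assoc]
      exact div_le_div_of_nonneg_right hbox hY0.le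
    have e2 : 1 ≤ (C ^ 2) ^ d * s ^ ((d : ℝ) - (d : ℝ) / 50) := by
      refine one_le_mul_of_one_le_of_one_le hCd2 (Real.one_le_rpow hs1 ?_)
      linarith
    have hsp : 0 < s ^ ((d : ℝ) - (d : ℝ) / 50) := Real.rpow_pos_of_pos hs0 _
    calc C1 * s ^ κ * (C2 * ((1 + (C * s * (ρ1 * ρ2)) ^ d / Y) * (s ^ (2 * (d : ℝ)) * Q)))
        ≤ C1 * s ^ κ * (C2 * ((2 * ((C ^ 2) ^ d * s ^ ((d : ℝ) - (d : ℝ) / 50))) *
          (s ^ (2 * (d : ℝ)) * Q))) := by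
          refine mul_le_mul_of_nonneg_left ?_ (by positivity)
          refine mul_le_mul_of_nonneg_left ?_ (by positivity)
          refine mul_le_mul_of_nonneg_right ?_ (by positivity)
          linarith
      _ = A1 * (s ^ κ * s ^ ((d : ℝ) - (d : ℝ) / 50) * s ^ (2 * (d : ℝ))) := by
          rw [hA1]
          ring
      _ ≤ A1 * s ^ (3 * (d : ℝ) - κ) := by
          rw [← Real.rpow_add hs0, ← Real.rpow_add hs0]
          refine mul_le_mul_of_nonneg_left (hexp _ _ ?_) hA1p.le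
          rw [hκ]
          linarith
  have hpart3 : ∀ S' ⊆ S, (∀ b ∈ S', b.2.2 = 0) →
      ∑ b ∈ S', ni (cn b) * Wt θ s b ≤ C3 * C ^ (2 * d) * s ^ (3 * (d : ℝ) - κ) := by
    intro S1 hS1 hp1
    have h4 := h3 s ρ1 ρ2 hs hρ hρ2 S1 (fun b hb => by
      obtain ⟨e1, e2, e3, -⟩ := hS b (hS1 hb)
      exact ⟨e1, e2, hp1 b hb, e3⟩)
    refine h4.trans ?_
    have e1 : ρ1 ^ (2 * d) ≤ C ^ (2 * d) := pow_le_pow_left₀ hρ10.le hρ.2.2.1 _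
    calc C3 * s ^ κ * (s ^ ((1 + 2 * θ) * (d : ℝ)) * ρ1 ^ (2 * d))
        ≤ C3 * s ^ κ * (s ^ ((1 + 2 * θ) * (d : ℝ)) * C ^ (2 * d)) := by
          refine mul_le_mul_of_nonneg_left ?_ (by positivity)
          exact mul_le_mul_of_nonneg_left e1 (Real.rpow_nonneg hs0.le _)
      _ = C3 * C ^ (2 * d) * (s ^ κ * s ^ ((1 + 2 * θ) * (d : ℝ))) := by ring
      _ ≤ C3 * C ^ (2 * d) * s ^ (3 * (d : ℝ) - κ) := by
          rw [← Real.rpow_add hs0]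
          refine mul_le_mul_of_nonneg_left (hexp _ _ ?_) (by positivity)
          rw [hκ]
          nlinarith
  rw [← Finset.sum_filter_add_sum_filter_not S (fun b : T3 K => b.2.2 = 0)]
  rw [← Finset.sum_filter_add_sum_filter_not (S.filter fun b : T3 K => ¬ b.2.2 = 0)
    (fun b : T3 K => ∃ φ : K →+* ℂ, sz φ (dt b) ≤ s ^ (2 - 1 / 50 : ℝ))]
  have g3 := hpart3 (S.filter fun b => b.2.2 = 0) (Finset.filter_subset _ _)
    (fun b hb => (Finset.mem_filter.1 hb).2)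
  have g1 := hpart1 ((S.filter fun b => ¬ b.2.2 = 0).filter
    fun b : T3 K => ∃ φ : K →+* ℂ, sz φ (dt b) ≤ s ^ (2 - 1 / 50 : ℝ))
    ((Finset.filter_subset _ _).trans (Finset.filter_subset _ _))
    (fun b hb => by
      obtain ⟨hb1, hb2⟩ := Finset.mem_filter.1 hb
      exact ⟨(Finset.mem_filter.1 hb1).2, hb2⟩)
  have g2 := hpart2 ((S.filter fun b => ¬ b.2.2 = 0).filter
    fun b : T3 K => ¬ ∃ φ : K →+* ℂ, sz φ (dt b) ≤ s ^ (2 - 1 / 50 : ℝ))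
    ((Finset.filter_subset _ _).trans (Finset.filter_subset _ _))
    (fun b hb => by
      obtain ⟨hb1, hb2⟩ := Finset.mem_filter.1 hb
      obtain ⟨hbS, hb3⟩ := Finset.mem_filter.1 hb1
      refine ⟨hb3, ?_⟩
      rcases (hS b hbS).2.2.2 with h | h
      · exact absurd h hb2
      · exact h)
  calc _ ≤ C3 * C ^ (2 * d) * s ^ (3 * (d : ℝ) - κ) +
        (A1 * s ^ (3 * (d : ℝ) - κ) + A1 * s ^ (3 * (d : ℝ) - κ)) :=
        add_le_add g3 (add_le_add g1 g2)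
    _ = _ := by ring

end H86.WB
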