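import Pool.Agent.H86.WB.Nrm
import Pool.Agent.H88.WS.Iface

/-!
# (W1#), chapter SUM: `SwStmt`

PROOF. `lam` is replaced by `min lam (ρ₁ ρ₂)²` (the weight gets larger), `s = σ ^ 100`.
`fib`: `b₁ = x ≠ 0` fixed: `|b₂|² ≤ |x| Z + T`, so `b₂` has at most `C vol √(|x| Z + T) / N h` values; for given `b₂` the `b₃` differ by
at most `2 min (T / |x|, Z)`. `pw`: `√(x Z + T) min (T / x, Z) ≤ 2 T √(Z / x)`. So there are at most
`C vol T √(Z ^ d / N x) / (N h)²` pairs. `cls`: sum over `x` (`nsum` with `a = 1 / 2`): `C vol T √((X Z) ^ d) / (N h)³`.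
`sw1`: `dyg` with `D b φ = max (|dt b| / s²) lam`, `M = 2 C² (ρ₁ ρ₂)²`, `α = 1 - θ`. `sw0`: `b₁ = 0`, trivial bound.
-/

set_option autoImplicit false

namespace H86.WB

open NumberField Finset H88.A4 Pool.Agent.H67.WA H88.WS

theorem card_fib {α β : Type} [DecidableEq β] (S : Finset α) (f : α → β) {M N : ℝ} (hM : 0 ≤ M)
    (hN : ((S.image f).card : ℝ) ≤ N)
    (h : ∀ y ∈ S.image f, ((S.filter fun x => f x = y).card : ℝ) ≤ M) :
    (S.card : ℝ) ≤ N * M := by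
  rw [Finset.card_eq_sum_card_image f S, Nat.cast_sum]
  calc _ ≤ ∑ y ∈ S.image f, M := Finset.sum_le_sum h
    _ = (S.image f).card * M := by rw [Finset.sum_const, nsmul_eq_mul]
    _ ≤ N * M := mul_le_mul_of_nonneg_right hN hM

private theorem pw {x T Z : ℝ} (hx : 0 < x) (hT : 0 < T) (hZ : 0 < Z) :
    Real.sqrt (x * Z + T) * min (T / x) Z ≤ 2 * (T * Real.sqrt (Z / x)) := by
  have hTx : 0 < T / x := by positivity
  have hm0 : 0 < min (T / x) Z := lt_min hTx hZ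
  refine (pow_le_pow_iff_left₀ (by positivity) (by positivity) two_ne_zero).1 ?_
  rw [mul_pow, Real.sq_sqrt (by positivity), mul_pow, mul_pow, Real.sq_sqrt (by positivity)]
  obtain ⟨m, hm⟩ : ∃ m, m = min (T / x) Z := ⟨_, rfl⟩
  have h1 : m ≤ T / x := hm ▸ min_le_left _ _
  have h2 : m ≤ Z := hm ▸ min_le_right _ _
  rw [← hm] at hm0 ⊢
  have e1 : x * Z * m ^ 2 ≤ T ^ 2 * (Z / x) := by
    calc x * Z * m ^ 2 ≤ x * Z * (T / x) ^ 2 :=
          mul_le_mul_of_nonneg_left (pow_le_pow_left₀ hm0.le h1 2) (by positivity)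
      _ = T ^ 2 * (Z / x) := by field_simp
  have e2 : T * m ^ 2 ≤ T ^ 2 * (Z / x) := by
    calc T * m ^ 2 = T * (m * m) := by ring
      _ ≤ T * ((T / x) * Z) :=
          mul_le_mul_of_nonneg_left (mul_le_mul h1 h2 hm0.le hTx.le) hT.le
      _ = T ^ 2 * (Z / x) := by field_simp
  have e3 : 0 < T ^ 2 * (Z / x) := by positivity
  nlinarith

variable (K : Type) [Field K] [NumberField K]

/-- fixed `b₁ ≠ 0` -/
private theorem fib : ∃ C : ℝ, 1 ≤ C ∧ ∀ (h : Ideal (𝓞 K)), h ≠ ⊥ → ∀ (Z c : ℝ)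
    (T : (K →+* ℂ) → ℝ) (x : 𝓞 K), x ≠ 0 → 0 < Z → (∀ φ, 0 < T φ) → 0 < c →
    ni h ≤ vol (fun φ => Real.sqrt (T φ)) →
    ni h ≤ c * vol (fun φ => min (T φ / sz φ x) Z) →
    ∀ S : Finset (T3 K), (∀ b ∈ S, b.1 = x ∧ b.2.1 ∈ h ∧ b.2.2 ∈ h ∧
      ∀ φ, sz φ b.2.2 ≤ Z ∧ sz φ (dt b) ≤ T φ) →
    (S.card : ℝ) ≤ C * (1 + c) * (vol T * Real.sqrt (Z ^ Module.finrank ℚ K / nz x)) /
      ni h ^ 2 := by
  classical
  obtain ⟨C1, hC1, h1⟩ := f1d K
  obtain ⟨C2, hC2, h2⟩ := f1 K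
  set d := Module.finrank ℚ K with hd
  have h2d : (1 : ℝ) ≤ 2 ^ d := one_le_pow₀ (by norm_num)
  refine ⟨2 * C2 * (C1 * 2 ^ d) * 2 ^ d, ?_, ?_⟩
  · have e1 : 1 ≤ C2 * (C1 * 2 ^ d) * 2 ^ d := one_le_mul_of_one_le_of_one_le
      (one_le_mul_of_one_le_of_one_le hC2 (one_le_mul_of_one_le_of_one_le hC1 h2d)) h2d
    nlinarith
  intro h hh Z c T x hx hZ hT hc hn1 hn2 S hS
  have hn : 0 < ni h := lt_of_lt_of_le one_pos (one_le_ni hh)
  have hxp : ∀ φ : K →+* ℂ, 0 < sz φ x := fun φ => sz_pos φ hx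
  set B : (K →+* ℂ) → ℝ := fun φ => Real.sqrt (sz φ x * Z + T φ) with hB
  set m : (K →+* ℂ) → ℝ := fun φ => min (T φ / sz φ x) Z with hm
  have hm0 : ∀ φ, 0 < m φ := fun φ => lt_min (div_pos (hT φ) (hxp φ)) hZ
  have hB0 : ∀ φ, 0 ≤ B φ := fun φ => Real.sqrt_nonneg _
  have hvm : 0 < vol m := vol_pos hm0
  have hvB : ni h ≤ vol B := hn1.trans (vol_mono (fun φ => Real.sqrt_nonneg _) fun φ =>
    Real.sqrt_le_sqrt (by have := mul_pos (hxp φ) hZ; linarith))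
  have hPc : ((S.image fun b : T3 K => b.2.1).card : ℝ) ≤ 2 * C2 * (vol B / ni h) := by
    have h3 := h2 h hh B hB0 (S.image fun b : T3 K => b.2.1) (fun y hy => by
      obtain ⟨b, hb, rfl⟩ := Finset.mem_image.1 hy
      obtain ⟨hb1, hb2, hb3, hb4⟩ := hS b hb
      refine ⟨hb2, fun φ => Real.le_sqrt_of_sq_le ?_⟩
      have e1 : b.2.1 ^ 2 = b.1 * b.2.2 - dt b := by
        unfold dt
        ring
      rw [← sz_pow, e1]
      refine (sz_sub φ _ _).trans (add_le_add ?_ (hb4 φ).2)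
      rw [sz_mul, hb1]
      exact mul_le_mul_of_nonneg_left (hb4 φ).1 (hxp φ).le)
    have h4 : 1 ≤ vol B / ni h := (one_le_div hn).2 hvB
    refine h3.trans ?_
    nlinarith
  have hfib : ∀ y ∈ S.image (fun b : T3 K => b.2.1),
      ((S.filter fun b => b.2.1 = y).card : ℝ) ≤ C1 * 2 ^ d * (1 + c) * (vol m / ni h) := by
    intro y _
    set F := S.filter (fun b : T3 K => b.2.1 = y) with hF
    have hFm : ∀ b ∈ F, b ∈ S ∧ b.2.1 = y := fun b hb => Finset.mem_filter.1 hb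
    have hinj : Set.InjOn (fun b : T3 K => b.2.2) F := by
      intro b hb b' hb' hbb
      obtain ⟨hb1, hb2⟩ := hFm b hb
      obtain ⟨hb1', hb2'⟩ := hFm b' hb'
      exact Prod.ext ((hS b hb1).1.trans (hS b' hb1').1.symm)
        (Prod.ext (hb2.trans hb2'.symm) hbb)
    have h3 := h1 h hh (fun φ => 2 * m φ) (fun φ => by have := hm0 φ; positivity)
      (F.image fun b : T3 K => b.2.2) (fun z hz z' hz' => by
        obtain ⟨b, hb, rfl⟩ := Finset.mem_image.1 hz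
        obtain ⟨b', hb', rfl⟩ := Finset.mem_image.1 hz'
        obtain ⟨hbS, hby⟩ := hFm b hb
        obtain ⟨hbS', hby'⟩ := hFm b' hb'
        obtain ⟨e1, e2, e3, e4⟩ := hS b hbS
        obtain ⟨e1', e2', e3', e4'⟩ := hS b' hbS'
        refine ⟨h.sub_mem e3 e3', fun φ => ?_⟩
        show sz φ (b.2.2 - b'.2.2) ≤ 2 * min (T φ / sz φ x) Z
        rw [mul_min_of_nonneg _ _ zero_le_two]
        refine le_min ?_ ?_
        · rw [← mul_div_assoc, le_div_iff₀ (hxp φ), mul_comm, ← sz_mul]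
          have e5 : x * (b.2.2 - b'.2.2) = dt b - dt b' := by
            unfold dt
            rw [e1, e1', hby, hby']
            ring
          rw [e5]
          refine (sz_sub φ _ _).trans ?_
          have := (e4 φ).2
          have := (e4' φ).2
          linarith
        · refine (sz_sub φ _ _).trans ?_
          have := (e4 φ).1
          have := (e4' φ).1
          linarith)
    rw [Finset.card_image_of_injOn hinj, vol_smul] at h3
    have h4 : 1 ≤ c * (vol m / ni h) := by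
      rw [← mul_div_assoc]
      exact (one_le_div hn).2 hn2
    have h5 : 0 < vol m / ni h := by positivity
    refine h3.trans ?_
    have h6 : c * (vol m / ni h) ≤ 2 ^ d * (c * (vol m / ni h)) :=
      le_mul_of_one_le_left (by positivity) h2d
    calc C1 * (1 + 2 ^ Module.finrank ℚ K * vol m / ni h)
        ≤ C1 * (2 ^ d * (c * (vol m / ni h)) + 2 ^ d * (vol m / ni h)) := by
          refine mul_le_mul_of_nonneg_left ?_ (by linarith)
          rw [mul_div_assoc]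
          linarith
      _ = C1 * 2 ^ d * (1 + c) * (vol m / ni h) := by ring
  have hprod : vol B * vol m ≤ 2 ^ d * (vol T * Real.sqrt (Z ^ d / nz x)) := by
    have h3 : vol (fun φ => B φ * m φ) ≤ vol (fun φ => 2 * (T φ * Real.sqrt (Z / sz φ x))) :=
      vol_mono (fun φ => mul_nonneg (hB0 φ) (hm0 φ).le) fun φ => pw (hxp φ) (hT φ) hZ
    rw [vol_mul, vol_smul, vol_mul, vol_sqrt (fun φ => div_nonneg hZ.le (hxp φ).le), vol_div,
      vol_const] at h3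
    exact h3
  have h3 := card_fib S (fun b : T3 K => b.2.1) (by positivity) hPc hfib
  calc (S.card : ℝ) ≤ 2 * C2 * (vol B / ni h) * (C1 * 2 ^ d * (1 + c) * (vol m / ni h)) := h3
    _ = 2 * C2 * (C1 * 2 ^ d) * (1 + c) * (vol B * vol m) / ni h ^ 2 := by
        field_simp
    _ ≤ 2 * C2 * (C1 * 2 ^ d) * (1 + c) * (2 ^ d * (vol T * Real.sqrt (Z ^ d / nz x))) /
          ni h ^ 2 := by
        refine div_le_div_of_nonneg_right ?_ (by positivity)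
        exact mul_le_mul_of_nonneg_left hprod (by positivity)
    _ = _ := by ring

/-- one class of determinants -/
private theorem cls : ∃ C : ℝ, 1 ≤ C ∧ ∀ (h : Ideal (𝓞 K)), h ≠ ⊥ → ∀ (X Z c τ : ℝ)
    (T : (K →+* ℂ) → ℝ), 0 < X → 0 < Z → 0 < τ → (∀ φ, τ ≤ T φ) → 0 < c →
    ni h ≤ Real.sqrt τ ^ Module.finrank ℚ K →
    ni h ≤ c * min (τ / X) Z ^ Module.finrank ℚ K →
    ∀ S : Finset (T3 K), (∀ b ∈ S, b.1 ≠ 0 ∧ T3.All (fun x => x ∈ h) b ∧
      ∀ φ, sz φ b.1 ≤ X ∧ sz φ b.2.2 ≤ Z ∧ sz φ (dt b) ≤ T φ) →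
    (S.card : ℝ) ≤ C * (1 + c) * (vol T * Real.sqrt ((X * Z) ^ Module.finrank ℚ K)) /
      ni h ^ 3 := by
  classical
  obtain ⟨C1, hC1, h1⟩ := fib K
  obtain ⟨C2, hC2, h2⟩ := nsum K (a := 1 / 2) (by norm_num) (by norm_num)
  set d := Module.finrank ℚ K with hd
  refine ⟨C1 * C2, one_le_mul_of_one_le_of_one_le hC1 hC2, ?_⟩
  intro h hh X Z c τ T hX hZ hτ hT hc hn1 hn2 S hS
  have hn : 0 < ni h := lt_of_lt_of_le one_pos (one_le_ni hh)
  have hT0 : ∀ φ, 0 < T φ := fun φ => hτ.trans_le (hT φ)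
  have hvT : 0 < vol T := vol_pos hT0
  rw [Finset.card_eq_sum_card_image (fun b : T3 K => b.1) S, Nat.cast_sum]
  have hterm : ∀ x ∈ S.image (fun b : T3 K => b.1), ((S.filter fun b => b.1 = x).card : ℝ) ≤
      C1 * (1 + c) * vol T * Real.sqrt (Z ^ d) / ni h ^ 2 * nz x ^ (-(1 / 2) : ℝ) := by
    intro x hx
    obtain ⟨b0, hb0, hb0x⟩ := Finset.mem_image.1 hx
    have hx0 : x ≠ 0 := hb0x ▸ (hS b0 hb0).1
    have hxp : ∀ φ : K →+* ℂ, 0 < sz φ x := fun φ => sz_pos φ hx0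
    have hxX : ∀ φ : K →+* ℂ, sz φ x ≤ X := fun φ => hb0x ▸ ((hS b0 hb0).2.2 φ).1
    have h3 := h1 h hh Z c T x hx0 hZ hT0 hc (hn1.trans ?_) (hn2.trans ?_)
      (S.filter fun b => b.1 = x) (fun b hb => by
        obtain ⟨hb1, hb2⟩ := Finset.mem_filter.1 hb
        obtain ⟨e1, e2, e3⟩ := hS b hb1
        exact ⟨hb2, e2.2.1, e2.2.2, fun φ => ⟨(e3 φ).2.1, (e3 φ).2.2⟩⟩)
    · refine h3.trans (le_of_eq ?_)
      have hnz := nz_pos hx0
      rw [Real.sqrt_div (by positivity), Real.rpow_neg hnz.le, ← Real.sqrt_eq_rpow]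
      have : Real.sqrt (nz x) ≠ 0 := (Real.sqrt_pos.2 hnz).ne'
      field_simp
    · rw [← vol_const (K := K)]
      exact vol_mono (fun _ => Real.sqrt_nonneg _) fun φ => Real.sqrt_le_sqrt (hT φ)
    · refine mul_le_mul_of_nonneg_left ?_ hc.le
      rw [← vol_const (K := K)]
      refine vol_mono (fun _ => le_min (by positivity) hZ.le) fun φ => min_le_min ?_ le_rfl
      rw [div_le_div_iff₀ hX (hxp φ)]
      exact mul_le_mul (hT φ) (hxX φ) (hxp φ).le (hT0 φ).le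
  refine (Finset.sum_le_sum hterm).trans ?_
  rw [← Finset.mul_sum]
  have h4 := h2 h hh X hX (S.image fun b : T3 K => b.1) (fun x hx => by
    obtain ⟨b, hb, rfl⟩ := Finset.mem_image.1 hx
    exact ⟨(hS b hb).1, (hS b hb).2.1.1, fun φ => ((hS b hb).2.2 φ).1⟩)
  calc C1 * (1 + c) * vol T * Real.sqrt (Z ^ d) / ni h ^ 2 *
        ∑ x ∈ S.image (fun b : T3 K => b.1), nz x ^ (-(1 / 2) : ℝ)
      ≤ C1 * (1 + c) * vol T * Real.sqrt (Z ^ d) / ni h ^ 2 *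
        (C2 * (X ^ d) ^ (1 - 1 / 2 : ℝ) / ni h) := mul_le_mul_of_nonneg_left h4 (by positivity)
    _ = _ := by
        have e1 : (X ^ d) ^ (1 - 1 / 2 : ℝ) = Real.sqrt (X ^ d) := by
          rw [Real.sqrt_eq_rpow]
          norm_num
        rw [e1, mul_pow, Real.sqrt_mul (by positivity)]
        field_simp

variable {K} in
private theorem wl_anti {θ s lam lam' : ℝ} (hθ : 0 ≤ θ) (hl : 0 < lam') (hll : lam' ≤ lam)
    (b : T3 K) : Wl θ s lam b ≤ Wl θ s lam' b :=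
  Finset.prod_le_prod (fun φ _ => Real.rpow_nonneg ((hl.le.trans hll).trans (le_max_right _ _)) _)
    fun φ _ => Real.rpow_le_rpow_of_nonpos (lt_max_of_lt_right hl) (max_le_max le_rfl hll)
      (by linarith)

/-- all classes, `b₁ ≠ 0` -/
private theorem sw1 {θ : ℝ} (hθ : 0 ≤ θ) (hθ1 : θ < 1) : ∃ C : ℝ, 1 ≤ C ∧
    ∀ (h : Ideal (𝓞 K)), h ≠ ⊥ → ∀ (s X Z c lam M0 : ℝ), 0 < s → 0 < X → 0 < Z → 0 < lam →
    lam ≤ M0 → 0 < c → ni h ≤ Real.sqrt (lam * s ^ 2) ^ Module.finrank ℚ K →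
    ni h ≤ c * min (lam * s ^ 2 / X) Z ^ Module.finrank ℚ K →
    ∀ S : Finset (T3 K), (∀ b ∈ S, b.1 ≠ 0 ∧ T3.All (fun x => x ∈ h) b ∧
      ∀ φ, sz φ b.1 ≤ X ∧ sz φ b.2.2 ≤ Z ∧ sz φ (dt b) ≤ M0 * s ^ 2) →
    ∑ b ∈ S, Wl θ s lam b ≤ C * (1 + c) * ((s ^ 2) ^ Module.finrank ℚ K *
      (M0 ^ Module.finrank ℚ K) ^ (1 - θ) * Real.sqrt ((X * Z) ^ Module.finrank ℚ K)) /
      ni h ^ 3 := by
  classical
  obtain ⟨C1, hC1, h1⟩ := cls K
  obtain ⟨C2, hC2, h2⟩ := dyg (κ := K →+* ℂ) (α := 1 - θ) (by linarith)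
  set d := Module.finrank ℚ K with hd
  have h2a : (1 : ℝ) ≤ ((2 : ℝ) ^ d) ^ θ := Real.one_le_rpow (one_le_pow₀ (by norm_num)) hθ
  refine ⟨C2 * (C1 * ((2 : ℝ) ^ d) ^ θ), one_le_mul_of_one_le_of_one_le hC2
    (one_le_mul_of_one_le_of_one_le hC1 h2a), ?_⟩
  intro h hh s X Z c lam M0 hs hX hZ hl hlM hc hn1 hn2 S hS
  have hn : 0 < ni h := lt_of_lt_of_le one_pos (one_le_ni hh)
  have hM0 : 0 < M0 := hl.trans_le hlM
  have hMd : 0 < M0 ^ d := pow_pos hM0 d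
  have hMt : 0 < (M0 ^ d) ^ (1 - θ) := Real.rpow_pos_of_pos hMd _
  have hs2 : 0 < s ^ 2 := pow_pos hs 2
  have h3 := h2 (T3 K) S (fun b φ => max (sz φ (dt b) / s ^ 2) lam) (Wl θ s lam) (fun _ => M0)
    (C1 * (1 + c) * ((2 : ℝ) ^ d) ^ θ * ((s ^ 2) ^ d * (M0 ^ d) ^ (1 - θ) *
      Real.sqrt ((X * Z) ^ d)) / ni h ^ 3) (by positivity)
    (fun b hb φ => ⟨lt_max_of_lt_right hl, max_le ?_ hlM⟩) ?_
  · refine h3.trans (le_of_eq ?_)
    ring
  · rw [div_le_iff₀ hs2]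
    exact ((hS b hb).2.2 φ).2.2
  · intro η hη S' hS' hcl
    have hv : 0 < vol η := vol_pos fun φ => (hη φ).1
    rcases S'.eq_empty_or_nonempty with rfl | ⟨b0, hb0⟩
    · rw [Finset.sum_empty]
      have : 0 ≤ ∏ v : K →+* ℂ, (η v / M0) ^ (1 - θ) :=
        Finset.prod_nonneg fun φ _ => Real.rpow_nonneg (div_nonneg (hη φ).1.le hM0.le) _
      positivity
    have hlη : ∀ φ, lam ≤ η φ := fun φ => (le_max_right _ _).trans (hcl b0 hb0 φ).1
    have hcard := h1 h hh X Z c (lam * s ^ 2) (fun φ => η φ * s ^ 2) hX hZ (by positivity)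
      (fun φ => mul_le_mul_of_nonneg_right (hlη φ) hs2.le) hc hn1 hn2 S' (fun b hb => by
        obtain ⟨e1, e2, e3⟩ := hS b (hS' hb)
        refine ⟨e1, e2, fun φ => ⟨(e3 φ).1, (e3 φ).2.1, ?_⟩⟩
        rw [← div_le_iff₀ hs2]
        exact (le_max_left _ _).trans (hcl b hb φ).1)
    rw [vol_mul_const, ← hd] at hcard
    have hw : ∀ b ∈ S', Wl θ s lam b ≤ vol η ^ (-θ) * ((2 : ℝ) ^ d) ^ θ := by
      intro b hb
      have e1 : Wl θ s lam b = (vol fun φ => max (sz φ (dt b) / s ^ 2) lam) ^ (-θ) := by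
        unfold Wl
        rw [Real.finsetProd_rpow _ _ (fun φ _ => hl.le.trans (le_max_right _ _))]
        rfl
      have e2 : vol η / 2 ^ d ≤ vol fun φ => max (sz φ (dt b) / s ^ 2) lam := by
        rw [div_le_iff₀ (by positivity), mul_comm]
        have e3 : vol η ≤ vol fun φ => 2 * max (sz φ (dt b) / s ^ 2) lam :=
          vol_mono (fun φ => (hη φ).1.le) fun φ => (hcl b hb φ).2
        rwa [vol_smul] at e3
      rw [e1]
      calc (vol fun φ => max (sz φ (dt b) / s ^ 2) lam) ^ (-θ) ≤ (vol η / 2 ^ d) ^ (-θ) :=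
            Real.rpow_le_rpow_of_nonpos (by positivity) e2 (by linarith)
        _ = vol η ^ (-θ) * ((2 : ℝ) ^ d) ^ θ := by
            rw [Real.div_rpow hv.le (by positivity), Real.rpow_neg (by positivity : (0:ℝ) ≤ 2 ^ d),
              div_inv_eq_mul]
    have hprod : ∏ _φ : K →+* ℂ, (η _φ / M0) ^ (1 - θ) = vol η ^ (1 - θ) / (M0 ^ d) ^ (1 - θ) := by
      rw [Real.finsetProd_rpow _ _ (fun φ _ => div_nonneg (hη φ).1.le hM0.le)]
      rw [Finset.prod_div_distrib]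
      have : ∏ _φ : K →+* ℂ, M0 = M0 ^ d := vol_const M0
      rw [this, Real.div_rpow (Finset.prod_nonneg fun φ _ => (hη φ).1.le) hMd.le]
      rfl
    calc ∑ b ∈ S', Wl θ s lam b ≤ ∑ b ∈ S', vol η ^ (-θ) * ((2 : ℝ) ^ d) ^ θ :=
          Finset.sum_le_sum hw
      _ = S'.card * (vol η ^ (-θ) * ((2 : ℝ) ^ d) ^ θ) := by
          rw [Finset.sum_const, nsmul_eq_mul]
      _ ≤ (C1 * (1 + c) * (vol η * (s ^ 2) ^ d * Real.sqrt ((X * Z) ^ d)) / ni h ^ 3) *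
            (vol η ^ (-θ) * ((2 : ℝ) ^ d) ^ θ) :=
          mul_le_mul_of_nonneg_right hcard (by positivity)
      _ = C1 * (1 + c) * ((2 : ℝ) ^ d) ^ θ * ((s ^ 2) ^ d * Real.sqrt ((X * Z) ^ d)) *
            (vol η * vol η ^ (-θ)) / ni h ^ 3 := by ring
      _ = C1 * (1 + c) * ((2 : ℝ) ^ d) ^ θ * ((s ^ 2) ^ d * Real.sqrt ((X * Z) ^ d)) *
            vol η ^ (1 - θ) / ni h ^ 3 := by
          rw [sub_eq_add_neg, Real.rpow_add hv, Real.rpow_one]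
      _ = _ := by
          rw [hprod]
          field_simp

/-- `b₁ = 0` -/
private theorem sw0 : ∃ C : ℝ, 1 ≤ C ∧
    ∀ (h : Ideal (𝓞 K)), h ≠ ⊥ → ∀ (θ s Y Z lam : ℝ), 0 ≤ θ → 0 ≤ Y → 0 ≤ Z → 0 < lam →
    ni h ≤ Y ^ Module.finrank ℚ K → ni h ≤ Z ^ Module.finrank ℚ K →
    ∀ S : Finset (T3 K), (∀ b ∈ S, b.1 = 0 ∧ T3.All (fun x => x ∈ h) b ∧
      ∀ φ, sz φ b.2.1 ≤ Y ∧ sz φ b.2.2 ≤ Z) →
    ∑ b ∈ S, Wl θ s lam b ≤ C * ((lam ^ Module.finrank ℚ K) ^ (-θ) *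
      (Y ^ Module.finrank ℚ K * Z ^ Module.finrank ℚ K)) / ni h ^ 2 := by
  classical
  obtain ⟨C1, hC1, h1⟩ := f1 K
  set d := Module.finrank ℚ K with hd
  refine ⟨(2 * C1) * (2 * C1), by nlinarith, ?_⟩
  intro h hh θ s Y Z lam hθ hY hZ hl hnY hnZ S hS
  have hn : 0 < ni h := lt_of_lt_of_le one_pos (one_le_ni hh)
  have hbox : ∀ (R : ℝ), 0 ≤ R → ni h ≤ R ^ d → ∀ P : Finset (𝓞 K),
      (∀ x ∈ P, x ∈ h ∧ ∀ φ, sz φ x ≤ R) → (P.card : ℝ) ≤ 2 * C1 * (R ^ d / ni h) := by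
    intro R hR hnR P hP
    have h2 := h1 h hh (fun _ => R) (fun _ => hR) P hP
    rw [vol_const] at h2
    have h3 : 1 ≤ R ^ d / ni h := (one_le_div hn).2 hnR
    refine h2.trans ?_
    nlinarith
  have hP := hbox Y hY hnY (S.image fun b : T3 K => b.2.1) (fun x hx => by
    obtain ⟨b, hb, rfl⟩ := Finset.mem_image.1 hx
    exact ⟨(hS b hb).2.1.2.1, fun φ => ((hS b hb).2.2 φ).1⟩)
  have hfib : ∀ y ∈ S.image (fun b : T3 K => b.2.1),
      ((S.filter fun b => b.2.1 = y).card : ℝ) ≤ 2 * C1 * (Z ^ d / ni h) := by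
    intro y _
    have hinj : Set.InjOn (fun b : T3 K => b.2.2) (S.filter fun b => b.2.1 = y) := by
      intro b hb b' hb' hbb
      obtain ⟨hb1, hb2⟩ := Finset.mem_filter.1 hb
      obtain ⟨hb1', hb2'⟩ := Finset.mem_filter.1 hb'
      exact Prod.ext ((hS b hb1).1.trans (hS b' hb1').1.symm)
        (Prod.ext (hb2.trans hb2'.symm) hbb)
    rw [← Finset.card_image_of_injOn hinj]
    refine hbox Z hZ hnZ _ fun x hx => ?_
    obtain ⟨b, hb, rfl⟩ := Finset.mem_image.1 hx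
    have hb1 := (Finset.mem_filter.1 hb).1
    exact ⟨(hS b hb1).2.1.2.2, fun φ => ((hS b hb1).2.2 φ).2⟩
  have hc := card_fib S (fun b : T3 K => b.2.1) (by positivity) hP hfib
  have hld : 0 < lam ^ d := pow_pos hl d
  have hw : ∀ b ∈ S, Wl θ s lam b ≤ (lam ^ d) ^ (-θ) := by
    intro b _
    unfold Wl
    rw [Real.finsetProd_rpow _ _ (fun φ _ => hl.le.trans (le_max_right _ _))]
    refine Real.rpow_le_rpow_of_nonpos hld ?_ (by linarith)
    have := vol_mono (K := K) (R := fun _ => lam) (S := fun φ => max (sz φ (dt b) / s ^ 2) lam)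
      (fun _ => hl.le) fun φ => le_max_right _ _
    rwa [vol_const] at this
  calc ∑ b ∈ S, Wl θ s lam b ≤ ∑ b ∈ S, (lam ^ d) ^ (-θ) := Finset.sum_le_sum hw
    _ = S.card * (lam ^ d) ^ (-θ) := by rw [Finset.sum_const, nsmul_eq_mul]
    _ ≤ (2 * C1 * (Y ^ d / ni h) * (2 * C1 * (Z ^ d / ni h))) * (lam ^ d) ^ (-θ) :=
        mul_le_mul_of_nonneg_right hc (by positivity)
    _ = _ := by
        field_simp

theorem sw : SwStmt K := by
  classical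
  intro θ hθ hθ1 C hC
  obtain ⟨C1, hC1, h1⟩ := sw1 K hθ hθ1
  obtain ⟨C2, hC2, h2⟩ := sw0 K
  obtain ⟨d, hd⟩ : ∃ d, d = Module.finrank ℚ K := ⟨_, rfl⟩
  simp only [← hd] at h1 h2 ⊢
  have hC0 : 0 < C := by linarith
  obtain ⟨A1, hA1⟩ : ∃ A1 : ℝ, A1 = C1 * (1 + (C ^ 3) ^ d) * (((2 * C ^ 2) ^ d) ^ (1 - θ) * C ^ d) :=
    ⟨_, rfl⟩
  obtain ⟨A2, hA2⟩ : ∃ A2 : ℝ, A2 = C2 * (C ^ d) ^ 4 := ⟨_, rfl⟩
  have hA1p : 0 < A1 := by
    rw [hA1]
    have : 0 < ((2 * C ^ 2) ^ d) ^ (1 - θ) := Real.rpow_pos_of_pos (by positivity) _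
    positivity
  have hA2p : 0 < A2 := by
    rw [hA2]
    positivity
  refine ⟨A1 + A2, by linarith, ?_⟩
  intro s ρ1 ρ2 lam hs hρ1' hρ12 hρ2' hlam hlam1 h hh hnh S hS
  have hs0 : 0 < s := by linarith
  -- the scale
  obtain ⟨σ, hσ⟩ : ∃ σ : ℝ, σ = s ^ (1 / 100 : ℝ) := ⟨_, rfl⟩
  have hσ1 : 1 ≤ σ := hσ ▸ Real.one_le_rpow hs (by norm_num)
  have hσ0 : 0 < σ := by linarith
  have hsσ : s = σ ^ 100 := by
    rw [hσ, ← Real.rpow_natCast, ← Real.rpow_mul hs0.le]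
    norm_num
  have e1 : s ^ (-(1 / 100) : ℝ) = σ⁻¹ := by rw [hσ, Real.rpow_neg hs0.le]
  have e2 : s ^ (1 / 50 : ℝ) = σ ^ 2 := by
    rw [hσ, ← Real.rpow_natCast, ← Real.rpow_mul hs0.le]
    norm_num
  have e3 : s ^ (-(1 / 50) : ℝ) = (σ ^ 2)⁻¹ := by rw [Real.rpow_neg hs0.le, e2]
  have e4 : s ^ ((d : ℝ) / 50) = (σ ^ 2) ^ d := by
    rw [← e2, ← Real.rpow_natCast, ← Real.rpow_mul hs0.le]
    congr 1
    ring
  rw [e1] at hρ1'
  rw [← hσ] at hρ2'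
  rw [e3] at hlam
  rw [e4] at hnh
  have hpow : ∀ m n : ℕ, m ≤ n → σ ^ m ≤ σ ^ n := fun m n h => pow_le_pow_right₀ hσ1 h
  have hn : 0 < ni h := lt_of_lt_of_le one_pos (one_le_ni hh)
  have hρ10 : 0 < ρ1 := lt_of_lt_of_le (inv_pos.2 hσ0) hρ1'
  have hρ20 : 0 < ρ2 := lt_of_lt_of_le hρ10 hρ12
  obtain ⟨p, hp⟩ : ∃ p, p = ρ1 * ρ2 := ⟨_, rfl⟩
  have hp0 : 0 < p := hp ▸ mul_pos hρ10 hρ20
  have hpσ : (σ ^ 2)⁻¹ ≤ p := by
    rw [hp, pow_two, mul_inv]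
    exact mul_le_mul hρ1' (hρ1'.trans hρ12) (by positivity) hρ10.le
  have hp2 : (σ ^ 4)⁻¹ ≤ p ^ 2 := by
    calc (σ ^ 4)⁻¹ = ((σ ^ 2)⁻¹) ^ 2 := by
          rw [inv_pow, ← pow_mul]
      _ ≤ p ^ 2 := pow_le_pow_left₀ (by positivity) hpσ 2
  -- the new cut
  obtain ⟨L, hL⟩ : ∃ L, L = min lam (p ^ 2) := ⟨_, rfl⟩
  have hLl : L ≤ lam := hL ▸ min_le_left _ _
  have hLp : L ≤ p ^ 2 := hL ▸ min_le_right _ _
  have hLσ : (σ ^ 4)⁻¹ ≤ L := by
    rw [hL]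
    refine le_min (le_trans ?_ hlam) hp2
    exact inv_anti₀ (by positivity) (hpow 2 4 (by norm_num))
  have hL0 : 0 < L := lt_of_lt_of_le (by positivity) hLσ
  have hstep : ∑ b ∈ S, Wl θ s lam b ≤ ∑ b ∈ S, Wl θ s L b :=
    Finset.sum_le_sum fun b _ => wl_anti hθ hL0 hLl b
  refine hstep.trans ?_
  rw [← Finset.sum_filter_add_sum_filter_not S (fun b : T3 K => b.1 ≠ 0)]
  -- sizes
  have hρ1sq : ρ1 ^ 2 ≤ C ^ 2 * σ ^ 2 := by
    rw [← mul_pow]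
    exact pow_le_pow_left₀ hρ10.le (hρ12.trans hρ2') 2
  have hρ2sq : ρ2 ^ 2 ≤ C ^ 2 * σ ^ 2 := by
    rw [← mul_pow]
    exact pow_le_pow_left₀ hρ20.le hρ2' 2
  have hρ2low : (σ ^ 2)⁻¹ ≤ ρ2 ^ 2 := by
    rw [← inv_pow]
    exact pow_le_pow_left₀ (by positivity) (hρ1'.trans hρ12) 2
  have hT : 0 < ((2 * C ^ 2) ^ d) ^ (1 - θ) := Real.rpow_pos_of_pos (by positivity) _
  have hpd : 0 < p ^ d := pow_pos hp0 d
  have hpr : p ^ ((3 - 2 * θ) * (d : ℝ)) = (((p ^ 2) ^ d) ^ (1 - θ)) * p ^ d := by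
    rw [← Real.rpow_natCast (p ^ 2) d, ← Real.rpow_natCast p 2, ← Real.rpow_mul hp0.le,
      ← Real.rpow_mul hp0.le, ← Real.rpow_natCast p d, ← Real.rpow_add hp0]
    congr 1
    push_cast
    ring
  have hZlow : σ ^ 2 ≤ C * s * ρ2 ^ 2 := by
    have h5 : σ ^ 98 ≤ s * ρ2 ^ 2 := by
      calc σ ^ 98 = s * (σ ^ 2)⁻¹ := by
            rw [hsσ, eq_mul_inv_iff_mul_eq₀ (by positivity)]
            ring
        _ ≤ s * ρ2 ^ 2 := mul_le_mul_of_nonneg_left hρ2low hs0.le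
    calc σ ^ 2 ≤ σ ^ 98 := hpow 2 98 (by norm_num)
      _ ≤ s * ρ2 ^ 2 := h5
      _ ≤ C * (s * ρ2 ^ 2) := le_mul_of_one_le_left (by positivity) hC
      _ = C * s * ρ2 ^ 2 := by ring
  have hYlow : σ ^ 2 ≤ C * s * p := by
    have h5 : σ ^ 98 ≤ s * p := by
      calc σ ^ 98 = s * (σ ^ 2)⁻¹ := by
            rw [hsσ, eq_mul_inv_iff_mul_eq₀ (by positivity)]
            ring
        _ ≤ s * p := mul_le_mul_of_nonneg_left hpσ hs0.le
    calc σ ^ 2 ≤ σ ^ 98 := hpow 2 98 (by norm_num)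
      _ ≤ s * p := h5
      _ ≤ C * (s * p) := le_mul_of_one_le_left (by positivity) hC
      _ = C * s * p := by ring
  have hb1 : ∑ b ∈ S with b.1 ≠ 0, Wl θ s L b ≤
      A1 * s ^ (3 * d) * p ^ ((3 - 2 * θ) * (d : ℝ)) * (ni h)⁻¹ ^ 3 := by
    have h3 := h1 h hh s (C * s * ρ1 ^ 2) (C * s * ρ2 ^ 2) ((C ^ 3) ^ d) L (2 * C ^ 2 * p ^ 2)
      hs0 (by positivity) (by positivity) hL0 ?_ (by positivity) ?_ ?_
      (S.filter fun b => b.1 ≠ 0) ?_
    · refine h3.trans (le_of_eq ?_)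
      have e5 : Real.sqrt ((C * s * ρ1 ^ 2 * (C * s * ρ2 ^ 2)) ^ d) = C ^ d * s ^ d * p ^ d := by
        have : (C * s * ρ1 ^ 2 * (C * s * ρ2 ^ 2)) ^ d = (C ^ d * s ^ d * p ^ d) ^ 2 := by
          rw [hp, ← mul_pow, ← mul_pow, ← pow_mul, mul_comm d 2, pow_mul]
          congr 1
          ring
        rw [this, Real.sqrt_sq (by positivity)]
      have e6 : ((2 * C ^ 2 * p ^ 2) ^ d) ^ (1 - θ) =
          ((2 * C ^ 2) ^ d) ^ (1 - θ) * ((p ^ 2) ^ d) ^ (1 - θ) := by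
        rw [mul_pow (2 * C ^ 2), Real.mul_rpow (by positivity) (by positivity)]
      have e7 : s ^ (3 * d) = (s ^ 2) ^ d * s ^ d := by
        rw [← mul_pow, ← pow_succ, ← pow_mul]
      rw [e5, e6, hpr, e7, hA1, inv_pow]
      ring
    · have h5 : 1 ≤ 2 * C ^ 2 := by nlinarith
      exact hLp.trans (le_mul_of_one_le_left (by positivity) h5)
    · refine hnh.trans (pow_le_pow_left₀ (by positivity) ?_ d)
      refine Real.le_sqrt_of_sq_le ?_
      calc (σ ^ 2) ^ 2 ≤ (σ ^ 4)⁻¹ * s ^ 2 := by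
            rw [inv_mul_eq_div, le_div_iff₀ (by positivity), hsσ, ← pow_mul, ← pow_mul, ← pow_add]
            exact hpow _ _ (by norm_num)
        _ ≤ L * s ^ 2 := mul_le_mul_of_nonneg_right hLσ (by positivity)
    · refine hnh.trans ?_
      rw [← mul_pow]
      refine pow_le_pow_left₀ (by positivity) ?_ d
      rw [mul_min_of_nonneg _ _ (by positivity)]
      refine le_min ?_ ?_
      · rw [← mul_div_assoc, le_div_iff₀ (by positivity)]
        calc σ ^ 2 * (C * s * ρ1 ^ 2) ≤ σ ^ 2 * (C * s * (C ^ 2 * σ ^ 2)) :=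
              mul_le_mul_of_nonneg_left (mul_le_mul_of_nonneg_left hρ1sq (by positivity))
                (by positivity)
          _ = C ^ 3 * (σ ^ 4 * s) := by ring
          _ ≤ C ^ 3 * ((σ ^ 4)⁻¹ * s ^ 2) := by
              refine mul_le_mul_of_nonneg_left ?_ (by positivity)
              rw [inv_mul_eq_div, le_div_iff₀ (by positivity), hsσ, ← pow_mul, ← pow_add, ← pow_add]
              exact hpow _ _ (by norm_num)
          _ ≤ C ^ 3 * (L * s ^ 2) := by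
              refine mul_le_mul_of_nonneg_left ?_ (by positivity)
              exact mul_le_mul_of_nonneg_right hLσ (by positivity)
      · exact hZlow.trans (le_mul_of_one_le_left (by positivity) (one_le_pow₀ hC))
    · intro b hb
      obtain ⟨hb1, hb2⟩ := Finset.mem_filter.1 hb
      obtain ⟨⟨f1, f2, f3⟩, f4⟩ := hS b hb1
      refine ⟨hb2, f4, fun φ => ⟨f1 φ, f3 φ, ?_⟩⟩
      have g1 : sz φ b.1 ≤ C * s * ρ1 ^ 2 := f1 φ
      have g2 : sz φ b.2.1 ≤ C * s * (ρ1 * ρ2) := f2 φ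
      have g3 : sz φ b.2.2 ≤ C * s * ρ2 ^ 2 := f3 φ
      have g4 : sz φ (dt b) ≤ C * s * ρ1 ^ 2 * (C * s * ρ2 ^ 2) + (C * s * (ρ1 * ρ2)) ^ 2 := by
        unfold dt
        refine (sz_sub φ _ _).trans ?_
        rw [sz_mul, sz_pow]
        exact add_le_add (mul_le_mul g1 g3 (sz_nonneg _ _) (by positivity))
          (pow_le_pow_left₀ (sz_nonneg _ _) g2 2)
      refine g4.trans (le_of_eq ?_)
      rw [hp]
      ring
  have hb0 : ∑ b ∈ S with ¬ b.1 ≠ 0, Wl θ s L b ≤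
      A2 * s ^ (3 * d) * p ^ ((3 - 2 * θ) * (d : ℝ)) * (ni h)⁻¹ ^ 3 := by
    have h3 := h2 h hh θ s (C * s * p) (C * s * ρ2 ^ 2) L hθ (by positivity) (by positivity) hL0
      (hnh.trans (pow_le_pow_left₀ (by positivity) hYlow d))
      (hnh.trans (pow_le_pow_left₀ (by positivity) hZlow d))
      (S.filter fun b => ¬ b.1 ≠ 0) (fun b hb => by
        obtain ⟨hb1, hb2⟩ := Finset.mem_filter.1 hb
        obtain ⟨⟨f1, f2, f3⟩, f4⟩ := hS b hb1
        exact ⟨not_not.1 hb2, f4, fun φ => ⟨by rw [hp]; exact f2 φ, f3 φ⟩⟩)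
    refine h3.trans ?_
    obtain ⟨u, hu⟩ : ∃ u, u = σ ^ d := ⟨_, rfl⟩
    have hu1 : 1 ≤ u := hu ▸ one_le_pow₀ hσ1
    have hu0 : 0 < u := by linarith
    have hupow : ∀ n : ℕ, (σ ^ n) ^ d = u ^ n := fun n => by
      rw [hu, ← pow_mul, ← pow_mul, mul_comm]
    have hLd : (L ^ d) ^ (-θ) ≤ u ^ 4 := by
      have g1 : (u ^ 4)⁻¹ ≤ L ^ d := by
        rw [← hupow 4, ← inv_pow]
        exact pow_le_pow_left₀ (by positivity) hLσ d
      calc (L ^ d) ^ (-θ) ≤ ((u ^ 4)⁻¹) ^ (-θ) :=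
            Real.rpow_le_rpow_of_nonpos (by positivity) g1 (by linarith)
        _ = (u ^ 4) ^ θ := by
            rw [Real.rpow_neg (by positivity), Real.inv_rpow (by positivity), inv_inv]
        _ ≤ (u ^ 4) ^ (1 : ℝ) :=
            Real.rpow_le_rpow_of_exponent_le (one_le_pow₀ hu1) hθ1.le
        _ = u ^ 4 := Real.rpow_one _
    have hpd2 : (u ^ 4)⁻¹ ≤ ((p ^ 2) ^ d) ^ (1 - θ) := by
      have g1 : (u ^ 4)⁻¹ ≤ (p ^ 2) ^ d := by
        rw [← hupow 4, ← inv_pow]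
        exact pow_le_pow_left₀ (by positivity) hp2 d
      calc (u ^ 4)⁻¹ = ((u ^ 4)⁻¹) ^ (1 : ℝ) := (Real.rpow_one _).symm
        _ ≤ ((u ^ 4)⁻¹) ^ (1 - θ) := by
            refine Real.rpow_le_rpow_of_exponent_ge (by positivity) ?_ (by linarith)
            exact inv_le_one_of_one_le₀ (one_le_pow₀ hu1)
        _ ≤ ((p ^ 2) ^ d) ^ (1 - θ) := Real.rpow_le_rpow (by positivity) g1 (by linarith)
    have hYd : (C * s * p) ^ d = C ^ d * u ^ 100 * p ^ d := by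
      rw [mul_pow, mul_pow, hsσ, hupow]
    have hZd : (C * s * ρ2 ^ 2) ^ d ≤ (C ^ d) ^ 3 * u ^ 102 := by
      calc (C * s * ρ2 ^ 2) ^ d ≤ (C * s * (C ^ 2 * σ ^ 2)) ^ d :=
            pow_le_pow_left₀ (by positivity) (mul_le_mul_of_nonneg_left hρ2sq (by positivity)) d
        _ = (C ^ 3 * σ ^ 102) ^ d := by
            rw [hsσ]
            congr 1
            ring
        _ = (C ^ d) ^ 3 * u ^ 102 := by
            rw [mul_pow, hupow, ← pow_mul, ← pow_mul, mul_comm 3 d]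
    have hnu : ni h ≤ u ^ 2 := by rwa [hupow] at hnh
    have hsd : s ^ (3 * d) = u ^ 300 := by
      rw [hsσ, ← pow_mul, hu, ← pow_mul]
      congr 1
      ring
    rw [hpr, hsd, hA2, inv_pow, ← div_eq_mul_inv, div_le_div_iff₀ (by positivity) (by positivity)]
    have hpd0 : 0 < p ^ d := hpd
    have hup : ∀ m n : ℕ, m ≤ n → u ^ m ≤ u ^ n := fun m n h => pow_le_pow_right₀ hu1 h
    have hY0 : 0 ≤ (C * s * p) ^ d := by positivity
    have hZ0 : 0 ≤ (C * s * ρ2 ^ 2) ^ d := by positivity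
    have hLd0 : 0 ≤ (L ^ d) ^ (-θ) := Real.rpow_nonneg (by positivity) _
    calc C2 * ((L ^ d) ^ (-θ) * ((C * s * p) ^ d * (C * s * ρ2 ^ 2) ^ d)) * ni h ^ 3
        = C2 * ((L ^ d) ^ (-θ) * ((C * s * p) ^ d * (C * s * ρ2 ^ 2) ^ d)) * ni h * ni h ^ 2 := by
          ring
      _ ≤ C2 * (u ^ 4 * ((C ^ d * u ^ 100 * p ^ d) * ((C ^ d) ^ 3 * u ^ 102))) * u ^ 2 *
            ni h ^ 2 := by
          refine mul_le_mul_of_nonneg_right ?_ (by positivity)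
          refine mul_le_mul ?_ hnu hn.le (by positivity)
          refine mul_le_mul_of_nonneg_left ?_ (by linarith)
          refine mul_le_mul hLd ?_ (by positivity) (by positivity)
          rw [hYd]
          exact mul_le_mul_of_nonneg_left hZd (by positivity)
      _ = C2 * (C ^ d) ^ 4 * (u ^ 208 * p ^ d) * ni h ^ 2 := by ring
      _ ≤ C2 * (C ^ d) ^ 4 * (u ^ 300 * ((u ^ 4)⁻¹ * p ^ d)) * ni h ^ 2 := by
          refine mul_le_mul_of_nonneg_right ?_ (by positivity)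
          refine mul_le_mul_of_nonneg_left ?_ (by positivity)
          rw [← mul_assoc]
          refine mul_le_mul_of_nonneg_right ?_ hpd0.le
          rw [← div_eq_mul_inv, le_div_iff₀ (by positivity), ← pow_add]
          exact hup _ _ (by norm_num)
      _ ≤ C2 * (C ^ d) ^ 4 * (u ^ 300 * (((p ^ 2) ^ d) ^ (1 - θ) * p ^ d)) * ni h ^ 2 := by
          refine mul_le_mul_of_nonneg_right ?_ (by positivity)
          refine mul_le_mul_of_nonneg_left ?_ (by positivity)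
          refine mul_le_mul_of_nonneg_left ?_ (by positivity)
          exact mul_le_mul_of_nonneg_right hpd2 hpd0.le
      _ = _ := by ring
  rw [← hp]
  calc _ ≤ A1 * s ^ (3 * d) * p ^ ((3 - 2 * θ) * (d : ℝ)) * (ni h)⁻¹ ^ 3 +
        A2 * s ^ (3 * d) * p ^ ((3 - 2 * θ) * (d : ℝ)) * (ni h)⁻¹ ^ 3 := add_le_add hb1 hb0
    _ = _ := by ring

end H86.WB
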