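import Mathlib

/-!
# (W1#), chapter SUM: dyadic classes with a gain (Mathlib only)

`dyg`: if in every dyadic class `D t v ∈ [η v / 2, η v]` the sum of `w` is at most `B ∏ (η v / M v) ^ α` then the whole
sum is at most `C B`, `C = (1 - 2 ^ (-α)) ^ (-card κ)`.
PROOF. `g t v = ⌊Real.logb 2 (M v / D t v)⌋₊`, `2 ^ g ≤ M / D ≤ 2 ^ (g + 1)`, `η v = M v * (1 / 2) ^ g`. The sum over all functions
`y : κ → range N` of `∏ ((1 / 2) ^ α) ^ (y v)` is the product of the geometric sums (`Finset.prod_univ_sum`).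
-/

set_option autoImplicit false

namespace H86.WB

open Finset

theorem dyg {κ : Type} [Fintype κ] {α : ℝ} (hα : 0 < α) : ∃ C : ℝ, 1 ≤ C ∧
    ∀ (ι : Type) (S : Finset ι) (D : ι → κ → ℝ) (w : ι → ℝ) (M : κ → ℝ) (B : ℝ), 0 ≤ B →
    (∀ t ∈ S, ∀ v, 0 < D t v ∧ D t v ≤ M v) →
    (∀ η : κ → ℝ, (∀ v, 0 < η v ∧ η v ≤ M v) → ∀ S' ⊆ S,
      (∀ t ∈ S', ∀ v, D t v ≤ η v ∧ η v ≤ 2 * D t v) → ∑ t ∈ S', w t ≤ B * ∏ v, (η v / M v) ^ α) →
    ∑ t ∈ S, w t ≤ C * B := by
  classical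
  set r : ℝ := (1 / 2 : ℝ) ^ α with hr
  have hr0 : 0 < r := Real.rpow_pos_of_pos (by norm_num) _
  have hr1 : r < 1 := Real.rpow_lt_one (by norm_num) (by norm_num) hα
  have hC1 : 1 ≤ (1 - r)⁻¹ := one_le_inv_iff₀.2 ⟨by linarith, by linarith⟩
  refine ⟨((1 - r)⁻¹) ^ Fintype.card κ, one_le_pow₀ hC1, fun ι S D w M B hB hD hcl => ?_⟩
  let g : ι → κ → ℕ := fun t v => ⌊Real.logb 2 (M v / D t v)⌋₊
  obtain ⟨N, hN⟩ : ∃ N : ℕ, ∀ t ∈ S, ∀ v, g t v < N := by
    refine ⟨(∑ t ∈ S, ∑ v, g t v) + 1, fun t ht v => Nat.lt_succ_of_le ?_⟩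
    calc g t v ≤ ∑ v, g t v := Finset.single_le_sum (fun _ _ => Nat.zero_le _) (mem_univ v)
      _ ≤ ∑ t ∈ S, ∑ v, g t v :=
        Finset.single_le_sum (f := fun t => ∑ v, g t v) (fun _ _ => Nat.zero_le _) ht
  let T : Finset (κ → ℕ) := Fintype.piFinset fun _ => range N
  have hmap : ∀ t ∈ S, g t ∈ T := fun t ht =>
    Fintype.mem_piFinset.2 fun v => mem_range.2 (hN t ht v)
  rw [← Finset.sum_fiberwise_of_maps_to hmap]
  have hfib : ∀ y ∈ T, ∑ t ∈ S.filter (fun t => g t = y), w t ≤ B * ∏ v, r ^ (y v) := by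
    intro y _
    rcases (S.filter fun t => g t = y).eq_empty_or_nonempty with he | ⟨t0, ht0⟩
    · rw [he, sum_empty]
      exact mul_nonneg hB (prod_nonneg fun v _ => (pow_pos hr0 _).le)
    obtain ⟨ht0S, -⟩ := mem_filter.1 ht0
    have hM : ∀ v, 0 < M v := fun v => (hD t0 ht0S v).1.trans_le (hD t0 ht0S v).2
    have h1 := hcl (fun v => M v * (1 / 2) ^ (y v)) (fun v => ⟨by have := hM v; positivity, ?_⟩)
      (S.filter fun t => g t = y) (filter_subset _ _) ?_
    · refine h1.trans (le_of_eq ?_)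
      congr 1
      refine prod_congr rfl fun v _ => ?_
      have := (hM v).ne'
      rw [mul_div_assoc, mul_div_cancel₀ _ this, hr, ← Real.rpow_natCast, ← Real.rpow_natCast,
        ← Real.rpow_mul (by norm_num), ← Real.rpow_mul (by norm_num), mul_comm]
    · exact mul_le_of_le_one_right (hM v).le (pow_le_one₀ (by norm_num) (by norm_num))
    · intro t ht v
      obtain ⟨htS, hty⟩ := mem_filter.1 ht
      obtain ⟨hd1, hd2⟩ := hD t htS v
      have hMd : 1 ≤ M v / D t v := (one_le_div hd1).2 hd2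
      have hMd0 : 0 < M v / D t v := by linarith
      have hlog : 0 ≤ Real.logb 2 (M v / D t v) := Real.logb_nonneg (by norm_num) hMd
      have hy : y v = ⌊Real.logb 2 (M v / D t v)⌋₊ := by rw [← hty]
      have e1 : (2 : ℝ) ^ (y v) ≤ M v / D t v := by
        have h2 : (2 : ℝ) ^ ((y v : ℕ) : ℝ) ≤ 2 ^ Real.logb 2 (M v / D t v) := by
          refine Real.rpow_le_rpow_of_exponent_le (by norm_num) ?_
          rw [hy]
          exact Nat.floor_le hlog
        rwa [Real.rpow_natCast, Real.rpow_logb (by norm_num) (by norm_num) hMd0] at h2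
      have e2 : M v / D t v ≤ 2 ^ (y v + 1) := by
        have h2 : (2 : ℝ) ^ Real.logb 2 (M v / D t v) ≤ 2 ^ (((y v + 1 : ℕ)) : ℝ) := by
          refine Real.rpow_le_rpow_of_exponent_le (by norm_num) ?_
          rw [hy]
          push_cast
          exact (Nat.lt_floor_add_one _).le
        rwa [Real.rpow_natCast, Real.rpow_logb (by norm_num) (by norm_num) hMd0] at h2
      rw [le_div_iff₀ hd1] at e1
      rw [div_le_iff₀ hd1, pow_succ] at e2
      have hp : (0 : ℝ) < 2 ^ (y v) := by positivity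
      constructor
      · show D t v ≤ M v * (1 / 2) ^ (y v)
        rw [one_div, inv_pow, ← div_eq_mul_inv, le_div_iff₀ hp]
        linarith
      · show M v * (1 / 2) ^ (y v) ≤ 2 * D t v
        rw [one_div, inv_pow, ← div_eq_mul_inv, div_le_iff₀ hp]
        linarith
  refine (sum_le_sum hfib).trans ?_
  rw [← mul_sum]
  have hgeo : ∑ y ∈ T, ∏ v, r ^ (y v) ≤ ((1 - r)⁻¹) ^ Fintype.card κ := by
    have h1 : ∑ y ∈ T, ∏ v, r ^ (y v) = ∏ _v : κ, ∑ k ∈ range N, r ^ k :=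
      (Finset.prod_univ_sum (fun _ => range N) (fun (_ : κ) k => r ^ k)).symm
    rw [h1, prod_const, card_univ]
    refine pow_le_pow_left₀ (sum_nonneg fun k _ => (pow_pos hr0 k).le) ?_ _
    rw [geom_sum_eq hr1.ne, ← neg_div_neg_eq, neg_sub, neg_sub, div_eq_mul_inv]
    refine mul_le_of_le_one_left (by linarith) ?_
    have := pow_pos hr0 N
    linarith
  calc B * ∑ y ∈ T, ∏ v, r ^ (y v) ≤ B * ((1 - r)⁻¹) ^ Fintype.card κ :=
        mul_le_mul_of_nonneg_left hgeo hB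
    _ = _ := mul_comm _ _

end H86.WB
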