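import Pool.Agent.H86.WB.NbY
import Pool.Agent.H67.WA.NbB
import Pool.Agent.H88.WS.Iface

/-!
# (W1#), chapter SUM: dyadic classes of the determinant with a loss `s ^ ε`

`XX C s = 2 C² (C s)³` bounds all entries and the determinant. `loss`: `dy` with `D b φ = |dt b|_φ / s²`. `clsA`, `clsB`, `clsC`: the
sums of `ni (cn b)` over one class for `b₁₁ b₂₂ ≠ 0` (with content of norm at least `Y`), `b₁₁ = 0`, `b₂₂ = 0 ≠ b₁₁`.
-/

set_option autoImplicit false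

namespace H86.WB

open NumberField Finset H88.A4 Pool.Agent.H67.WA H88.WS

/-- bound of all entries -/
noncomputable def XX (C s : ℝ) : ℝ := 2 * C ^ 2 * (C * s) ^ 3

theorem one_le_XX {C s : ℝ} (hC : 1 ≤ C) (hs : 1 ≤ C * s) : 1 ≤ XX C s := by
  have h1 : 1 ≤ C ^ 2 := one_le_pow₀ hC
  have h2 : 1 ≤ (C * s) ^ 3 := one_le_pow₀ hs
  unfold XX
  nlinarith

theorem XX_pow {C s : ℝ} (hC : 1 ≤ C) (hs : 0 < s) (ε : ℝ) :
    XX C s ^ (ε / 3) = (2 * C ^ 5) ^ (ε / 3) * s ^ ε := by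
  have h1 : XX C s = (2 * C ^ 5) * s ^ 3 := by
    unfold XX
    ring
  rw [h1, Real.mul_rpow (by positivity) (by positivity), ← Real.rpow_natCast s 3,
    ← Real.rpow_mul hs.le]
  congr 2
  push_cast
  ring

variable {K : Type} [Field K] [NumberField K]

theorem dt_le {C s ρ1 ρ2 : ℝ} (hC : 0 < C) (hs : 0 < s) (h1 : 0 < ρ1) (_h2 : 0 < ρ2) {b : T3 K}
    (hb : Bx C s ρ1 ρ2 b) (φ : K →+* ℂ) : sz φ (dt b) ≤ 2 * C ^ 2 * (ρ1 * ρ2) ^ 2 * s ^ 2 := by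
  obtain ⟨f1, f2, f3⟩ := hb
  have g1 : sz φ b.1 ≤ C * s * ρ1 ^ 2 := f1 φ
  have g2 : sz φ b.2.1 ≤ C * s * (ρ1 * ρ2) := f2 φ
  have g3 : sz φ b.2.2 ≤ C * s * ρ2 ^ 2 := f3 φ
  have g4 : sz φ (dt b) ≤ C * s * ρ1 ^ 2 * (C * s * ρ2 ^ 2) + (C * s * (ρ1 * ρ2)) ^ 2 := by
    unfold dt
    refine (sz_sub φ _ _).trans ?_
    rw [sz_mul, sz_pow]
    exact add_le_add (mul_le_mul g1 g3 (sz_nonneg _ _) (by positivity))
      (pow_le_pow_left₀ (sz_nonneg _ _) g2 2)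
  refine g4.trans (le_of_eq ?_)
  ring

theorem rho_prod {C ρ1 ρ2 : ℝ} (hC : 1 ≤ C) (hρ : Rho C ρ1 ρ2) : ρ1 * ρ2 ≤ C := by
  obtain ⟨h1, h2, h3, h4⟩ := hρ
  have h5 : (ρ1 * ρ2) ^ 2 ≤ C ^ 2 := by
    calc (ρ1 * ρ2) ^ 2 = ρ1 * (ρ1 * ρ2 ^ 2) := by ring
      _ ≤ C * C := mul_le_mul h3 h4 (by positivity) (by linarith)
      _ = C ^ 2 := by ring
  exact (pow_le_pow_iff_left₀ (mul_nonneg h1.le (h1.le.trans h2)) (by linarith) two_ne_zero).1 h5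

theorem bx_le {C s ρ1 ρ2 : ℝ} (hC : 1 ≤ C) (hs : 1 ≤ C * s) (hρ : Rho C ρ1 ρ2)
    (hρ2 : ρ2 ≤ C * s) {b : T3 K} (hb : Bx C s ρ1 ρ2 b) (φ : K →+* ℂ) :
    sz φ b.1 ≤ XX C s ∧ sz φ b.2.1 ≤ XX C s ∧ sz φ b.2.2 ≤ XX C s ∧ sz φ (dt b) ≤ XX C s := by
  have hC0 : 0 < C := by linarith
  have hs0 : 0 < s := by
    by_contra hcon
    push Not at hcon
    have : C * s ≤ 0 := mul_nonpos_of_nonneg_of_nonpos hC0.le hcon
    linarith
  have hp := rho_prod hC hρ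
  obtain ⟨h1, h2, h3, h4⟩ := hρ
  have hρ20 : 0 < ρ2 := lt_of_lt_of_le h1 h2
  have hd := dt_le hC0 hs0 h1 hρ20 hb φ
  obtain ⟨f1, f2, f3⟩ := hb
  have g1 : sz φ b.1 ≤ C * s * ρ1 ^ 2 := f1 φ
  have g2 : sz φ b.2.1 ≤ C * s * (ρ1 * ρ2) := f2 φ
  have g3 : sz φ b.2.2 ≤ C * s * ρ2 ^ 2 := f3 φ
  obtain ⟨w, hw⟩ : ∃ w, w = C * s := ⟨_, rfl⟩
  have hw1 : 1 ≤ w := hw ▸ hs
  have hw0 : 0 < w := by linarith
  have e2 : w ≤ w ^ 3 := le_self_pow₀ hw1 (by norm_num)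
  have e3 : w ^ 2 ≤ w ^ 3 := pow_le_pow_right₀ hw1 (by norm_num)
  have hC2 : 1 ≤ C ^ 2 := one_le_pow₀ hC
  have hX : XX C s = 2 * C ^ 2 * w ^ 3 := by
    unfold XX
    rw [hw]
  rw [hX]
  rw [← hw] at g1 g2 g3
  refine ⟨g1.trans ?_, g2.trans ?_, g3.trans ?_, hd.trans ?_⟩
  · calc w * ρ1 ^ 2 ≤ w * C ^ 2 := by
          refine mul_le_mul_of_nonneg_left (pow_le_pow_left₀ h1.le h3 2) hw0.le
      _ ≤ w ^ 3 * C ^ 2 := mul_le_mul_of_nonneg_right e2 (by positivity)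
      _ ≤ 2 * C ^ 2 * w ^ 3 := by
          have : 0 < C ^ 2 * w ^ 3 := by positivity
          nlinarith
  · calc w * (ρ1 * ρ2) ≤ w * C ^ 2 := by
          refine mul_le_mul_of_nonneg_left (hp.trans ?_) hw0.le
          exact le_self_pow₀ hC (by norm_num)
      _ ≤ w ^ 3 * C ^ 2 := mul_le_mul_of_nonneg_right e2 (by positivity)
      _ ≤ 2 * C ^ 2 * w ^ 3 := by
          have : 0 < C ^ 2 * w ^ 3 := by positivity
          nlinarith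
  · calc w * ρ2 ^ 2 ≤ w * w ^ 2 := by
          refine mul_le_mul_of_nonneg_left (pow_le_pow_left₀ hρ20.le ?_ 2) hw0.le
          rw [hw]
          exact hρ2
      _ = 1 * w ^ 3 := by ring
      _ ≤ 2 * C ^ 2 * w ^ 3 := mul_le_mul_of_nonneg_right (by linarith) (by positivity)
  · calc 2 * C ^ 2 * (ρ1 * ρ2) ^ 2 * s ^ 2 ≤ 2 * C ^ 2 * C ^ 2 * s ^ 2 := by
          refine mul_le_mul_of_nonneg_right ?_ (by positivity)
          refine mul_le_mul_of_nonneg_left ?_ (by positivity)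
          exact pow_le_pow_left₀ (by positivity) hp 2
      _ = 2 * C ^ 2 * w ^ 2 := by
          rw [hw]
          ring
      _ ≤ 2 * C ^ 2 * w ^ 3 := mul_le_mul_of_nonneg_left e3 (by positivity)

variable (K)

theorem loss {θ : ℝ} (hθ : 0 ≤ θ) {ε : ℝ} (hε : 0 < ε) {C : ℝ} (hC : 1 ≤ C) :
    ∃ C' : ℝ, 1 ≤ C' ∧ ∀ s ρ1 ρ2 : ℝ, 1 ≤ C * s → Rho C ρ1 ρ2 → ρ2 ≤ C * s →
    ∀ (S : Finset (T3 K)) (M : ℝ), 0 ≤ M → (∀ b ∈ S, Bx C s ρ1 ρ2 b ∧ dt b ≠ 0) →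
    (∀ η : (K →+* ℂ) → ℝ, (∀ φ, 0 < η φ ∧ η φ ≤ 4 * C ^ 2 * (ρ1 * ρ2) ^ 2) →
      1 ≤ vol η * (s ^ 2) ^ Module.finrank ℚ K → ∀ S' ⊆ S, S'.Nonempty →
      (∀ b ∈ S', ∀ φ, sz φ (dt b) ≤ η φ * s ^ 2 ∧ η φ ≤ 2 * (sz φ (dt b) / s ^ 2)) →
      ∑ b ∈ S', ni (cn b) ≤ XX C s ^ (ε / 6) * M * vol η ^ θ) →
    ∑ b ∈ S, ni (cn b) * Wt θ s b ≤ C' * s ^ ε * M := by
  classical
  obtain ⟨d, hd⟩ : ∃ d, d = Module.finrank ℚ K := ⟨_, rfl⟩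
  rw [← hd]
  obtain ⟨C1, hC1, h1⟩ := dy (κ := K →+* ℂ) (ε := ε / 6) (by positivity) (d + 2)
  have h2a : (1 : ℝ) ≤ ((2 : ℝ) ^ d) ^ θ := Real.one_le_rpow (one_le_pow₀ (by norm_num)) hθ
  have hC5 : (1 : ℝ) ≤ (2 * C ^ 5) ^ (ε / 3) := by
    refine Real.one_le_rpow ?_ (by positivity)
    have : 1 ≤ C ^ 5 := one_le_pow₀ hC
    linarith
  refine ⟨C1 * (2 * C ^ 5) ^ (ε / 3) * ((2 : ℝ) ^ d) ^ θ, one_le_mul_of_one_le_of_one_le
    (one_le_mul_of_one_le_of_one_le hC1 hC5) h2a, ?_⟩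
  intro s ρ1 ρ2 hs hρ hρ2 S M hM hS hcl
  have hC0 : 0 < C := by linarith
  have hs0 : 0 < s := by
    by_contra hcon
    push Not at hcon
    have : C * s ≤ 0 := mul_nonpos_of_nonneg_of_nonpos hC0.le hcon
    linarith
  have hs2 : 0 < s ^ 2 := pow_pos hs0 2
  obtain ⟨X, hX⟩ : ∃ X, X = XX C s := ⟨_, rfl⟩
  have hX1 : 1 ≤ X := hX ▸ one_le_XX hC hs
  have hX0 : 0 < X := by linarith
  have hρ10 : 0 < ρ1 := hρ.1
  have hρ20 : 0 < ρ2 := lt_of_lt_of_le hρ10 hρ.2.1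
  have hCX : C ^ 2 ≤ X := by
    rw [hX]
    unfold XX
    have h3 : 1 ≤ (C * s) ^ 3 := one_le_pow₀ hs
    have h4 : 0 < C ^ 2 := by positivity
    nlinarith
  have hsX : s ^ 2 ≤ X ^ 2 := by
    refine pow_le_pow_left₀ hs0.le ?_ 2
    have h3 : s ≤ C * s := le_mul_of_one_le_left hs0.le hC
    have h4 : C * s ≤ (C * s) ^ 3 := le_self_pow₀ hs (by norm_num)
    have h5 : 1 ≤ C ^ 2 := one_le_pow₀ hC
    rw [hX]
    unfold XX
    nlinarith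
  have hsC : 1 ≤ C ^ 2 * s ^ 2 := by
    rw [← mul_pow]
    exact one_le_pow₀ hs
  have hup : ∀ b ∈ S, ∀ φ, sz φ (dt b) ≤ 2 * C ^ 2 * (ρ1 * ρ2) ^ 2 * s ^ 2 := fun b hb φ =>
    dt_le hC0 hs0 hρ10 hρ20 (hS b hb).1 φ
  have hMd : 0 ≤ XX C s ^ (ε / 6) * M * ((2 : ℝ) ^ d) ^ θ := by
    rw [← hX]
    have : 0 < X ^ (ε / 6) := Real.rpow_pos_of_pos hX0 _
    positivity
  have h3 := h1 X hX1 (T3 K) S (fun b φ => sz φ (dt b) / s ^ 2) (fun b => ni (cn b) * Wt θ s b)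
    (XX C s ^ (ε / 6) * M * ((2 : ℝ) ^ d) ^ θ) hMd ?_ ?_
  · refine h3.trans (le_of_eq ?_)
    have e1 : X ^ (ε / 6) * X ^ (ε / 6) = X ^ (ε / 3) := by
      rw [← Real.rpow_add hX0]
      congr 1
      ring
    rw [← hX]
    calc C1 * X ^ (ε / 6) * (X ^ (ε / 6) * M * ((2 : ℝ) ^ d) ^ θ)
        = C1 * (X ^ (ε / 6) * X ^ (ε / 6)) * ((2 : ℝ) ^ d) ^ θ * M := by ring
      _ = C1 * ((2 * C ^ 5) ^ (ε / 3) * s ^ ε) * ((2 : ℝ) ^ d) ^ θ * M := by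
          rw [e1, hX, XX_pow hC hs0]
      _ = _ := by ring
  · intro b hb φ
    obtain ⟨hb1, hb2⟩ := hS b hb
    have hall := fun φ => (bx_le hC hs hρ hρ2 hb1 φ).2.2.2
    rw [← hX] at hall
    have hlow := sz_low hb2 hX1 hall φ
    rw [← hd] at hlow
    constructor
    · rw [le_div_iff₀ hs2]
      refine le_trans ?_ hlow
      rw [pow_add, mul_inv, mul_assoc]
      refine mul_le_of_le_one_right (by positivity) ?_
      rw [inv_mul_le_iff₀ (by positivity), mul_one]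
      exact hsX
    · rw [div_le_iff₀ hs2]
      calc sz φ (dt b) ≤ X := hall φ
        _ = X * 1 := (mul_one X).symm
        _ ≤ X * (C ^ 2 * s ^ 2) := mul_le_mul_of_nonneg_left hsC hX0.le
        _ ≤ X * (X * s ^ 2) := by
            refine mul_le_mul_of_nonneg_left ?_ hX0.le
            exact mul_le_mul_of_nonneg_right hCX hs2.le
        _ = X ^ 2 * s ^ 2 := by ring
        _ ≤ X ^ (d + 2) * s ^ 2 := by
            refine mul_le_mul_of_nonneg_right ?_ hs2.le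
            exact pow_le_pow_right₀ hX1 (by omega)
  · intro η hη S' hS' hc
    rcases S'.eq_empty_or_nonempty with rfl | ⟨b0, hb0⟩
    · rw [Finset.sum_empty]
      exact hMd
    have hv : 0 < vol η := vol_pos hη
    have hη2 : ∀ φ, 0 < η φ ∧ η φ ≤ 4 * C ^ 2 * (ρ1 * ρ2) ^ 2 := by
      intro φ
      refine ⟨hη φ, (hc b0 hb0 φ).2.trans ?_⟩
      have h4 := hup b0 (hS' hb0) φ
      rw [← div_le_iff₀ hs2] at h4
      show 2 * (sz φ (dt b0) / s ^ 2) ≤ _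
      linarith
    have hcl' : ∀ b ∈ S', ∀ φ, sz φ (dt b) ≤ η φ * s ^ 2 ∧ η φ ≤ 2 * (sz φ (dt b) / s ^ 2) := by
      intro b hb φ
      refine ⟨?_, (hc b hb φ).2⟩
      rw [← div_le_iff₀ hs2]
      exact (hc b hb φ).1
    have h1v : 1 ≤ vol η * (s ^ 2) ^ d := by
      have h4 := (one_le_nz (hS b0 (hS' hb0)).2).trans (nz_le_vol fun φ => (hcl' b0 hb0 φ).1)
      rwa [vol_mul_const, ← hd] at h4
    have h5 := hcl η hη2 h1v S' hS' ⟨b0, hb0⟩ hcl'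
    have hw : ∀ b ∈ S', ni (cn b) * Wt θ s b ≤ ni (cn b) * (vol η ^ (-θ) * ((2 : ℝ) ^ d) ^ θ) := by
      intro b hb
      refine mul_le_mul_of_nonneg_left ?_ (ni_nonneg _)
      have e1 : Wt θ s b = (vol fun φ => sz φ (dt b) / s ^ 2) ^ (-θ) := by
        unfold Wt
        rw [Real.finsetProd_rpow _ _ (fun φ _ => div_nonneg (sz_nonneg _ _) hs2.le)]
        rfl
      have e2 : vol η / 2 ^ d ≤ vol fun φ => sz φ (dt b) / s ^ 2 := by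
        rw [div_le_iff₀ (by positivity), mul_comm]
        have e3 : vol η ≤ vol fun φ => 2 * (sz φ (dt b) / s ^ 2) :=
          vol_mono (fun φ => (hη φ).le) fun φ => (hcl' b hb φ).2
        rwa [vol_smul, ← hd] at e3
      rw [e1]
      calc (vol fun φ => sz φ (dt b) / s ^ 2) ^ (-θ) ≤ (vol η / 2 ^ d) ^ (-θ) :=
            Real.rpow_le_rpow_of_nonpos (by positivity) e2 (by linarith)
        _ = vol η ^ (-θ) * ((2 : ℝ) ^ d) ^ θ := by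
            rw [Real.div_rpow hv.le (by positivity), Real.rpow_neg (by positivity : (0:ℝ) ≤ 2 ^ d),
              div_inv_eq_mul]
    calc ∑ b ∈ S', ni (cn b) * Wt θ s b
        ≤ ∑ b ∈ S', ni (cn b) * (vol η ^ (-θ) * ((2 : ℝ) ^ d) ^ θ) := Finset.sum_le_sum hw
      _ = (∑ b ∈ S', ni (cn b)) * (vol η ^ (-θ) * ((2 : ℝ) ^ d) ^ θ) := by rw [Finset.sum_mul]
      _ ≤ (XX C s ^ (ε / 6) * M * vol η ^ θ) * (vol η ^ (-θ) * ((2 : ℝ) ^ d) ^ θ) :=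
          mul_le_mul_of_nonneg_right h5 (by positivity)
      _ = XX C s ^ (ε / 6) * M * ((2 : ℝ) ^ d) ^ θ * (vol η ^ θ * vol η ^ (-θ)) := by ring
      _ = _ := by rw [← Real.rpow_add hv, add_neg_cancel, Real.rpow_zero, mul_one]

end H86.WB
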