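import Pool.Agent.H67.WA.Cnt

/-!
# (W1#), chapter SUM: matrices with `b₁₁ b₂₂ ≠ 0` and content of norm at least `Y`

The proof is the proof of `Pool.Agent.H67.WA.nba` (helper67) with `1 + vol A / ni I ≤ 1 + vol A / Y` in place of `1 + vol A`.
-/

set_option autoImplicit false

namespace H86.WB

open NumberField Finset H88.A4 Pool.Agent.H67.WA

variable (K : Type) [Field K] [NumberField K]

theorem nbaY {ε : ℝ} (hε : 0 < ε) : ∃ C : ℝ, 1 ≤ C ∧ ∀ X : ℝ, 1 ≤ X → ∀ A T : (K →+* ℂ) → ℝ,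
    (∀ φ, 0 ≤ A φ) → (∀ φ, 0 ≤ T φ) → ∀ Y : ℝ, 0 < Y → ∀ S : Finset (T3 K),
    (∀ b ∈ S, b.1 ≠ 0 ∧ b.2.2 ≠ 0 ∧ dt b ≠ 0 ∧ (∀ φ, sz φ b.1 ≤ X ∧ sz φ b.2.2 ≤ X ∧
      sz φ b.2.1 ≤ A φ ∧ sz φ (dt b) ≤ T φ) ∧ Y ≤ ni (cn b)) →
    ∑ b ∈ S, ni (cn b) ≤ C * X ^ ε * ((1 + vol A / Y) * vol T) := by
  classical
  set d : ℕ := Module.finrank ℚ K with hd
  have hd0 : (0 : ℝ) < d := by exact_mod_cast (Module.finrank_pos : 0 < Module.finrank ℚ K)
  obtain ⟨C1, hC1, h1⟩ := f1 K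
  obtain ⟨C2, hC2, h2⟩ := f1n K
  obtain ⟨C3, hC3, h3⟩ := f3 K (half_pos hε)
  obtain ⟨C4, hC4, h4⟩ := ids K (ε := ε / 2 / d) (by positivity)
  refine ⟨C1 * C2 * C3 * C4, ?_, fun X hX A T hA hT Y hY S hS => ?_⟩
  · exact one_le_mul_of_one_le_of_one_le (one_le_mul_of_one_le_of_one_le
      (one_le_mul_of_one_le_of_one_le hC1 hC2) hC3) hC4
  have hX0 : 0 < X := by linarith
  have hvA := vol_nonneg hA
  have hvT := vol_nonneg hT
  have hvAY : 0 ≤ vol A / Y := div_nonneg hvA hY.le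
  set G : Finset (Ideal (𝓞 K)) := S.image cn with hG
  have hmaps : ∀ b ∈ S, cn b ∈ G := fun b hb => Finset.mem_image_of_mem _ hb
  rw [← Finset.sum_fiberwise_of_maps_to hmaps]
  have hGne : ∀ I ∈ G, I ≠ ⊥ ∧ ni I ≤ X ^ d := by
    intro I hI
    obtain ⟨b, hb, rfl⟩ := Finset.mem_image.1 hI
    refine ⟨cn_ne (hS b hb).2.2.1, ?_⟩
    refine (ni_le_nz (cn_1 b) (hS b hb).1).trans ?_
    refine (nz_le_vol (R := fun _ => X) fun φ => ((hS b hb).2.2.2.1 φ).1).trans ?_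
    rw [vol_const]
  have hterm : ∀ I ∈ G, ∑ b ∈ S with cn b = I, ni (cn b) ≤
      C1 * C2 * C3 * X ^ (ε / 2) * ((1 + vol A / Y) * vol T) * (ni I)⁻¹ := by
    intro I hI
    have hI0 := (hGne I hI).1
    have hIY : Y ≤ ni I := by
      obtain ⟨b, hb, rfl⟩ := Finset.mem_image.1 hI
      exact (hS b hb).2.2.2.2
    have hni : 1 ≤ ni I := one_le_ni hI0
    have hni0 : 0 < ni I := by linarith
    set SI := S.filter (fun b => cn b = I) with hSI
    have hmem : ∀ b ∈ SI, b ∈ S ∧ cn b = I := fun b hb => Finset.mem_filter.1 hb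
    have hsum : ∑ b ∈ SI, ni (cn b) = SI.card * ni I := by
      rw [Finset.sum_congr rfl (fun b hb => by rw [(hmem b hb).2]), Finset.sum_const, nsmul_eq_mul]
    rw [hsum]
    set P : Finset (𝓞 K) := SI.image (fun b => b.2.1) with hP
    set Q : Finset (𝓞 K) := SI.image dt with hQ
    have hPc : (P.card : ℝ) ≤ C1 * (1 + vol A / Y) := by
      refine (h1 I hI0 A hA P fun x hx => ?_).trans ?_
      · obtain ⟨b, hb, rfl⟩ := Finset.mem_image.1 hx
        obtain ⟨hb1, hb2⟩ := hmem b hb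
        exact ⟨hb2 ▸ cn_2 b, fun φ => ((hS b hb1).2.2.2.1 φ).2.2.1⟩
      · have : vol A / ni I ≤ vol A / Y := div_le_div_of_nonneg_left hvA hY hIY
        nlinarith
    have hQc : (Q.card : ℝ) ≤ C2 * (vol T / ni I ^ 2) := by
      have h5 := h2 (I ^ 2) (pow_ne_zero 2 hI0) T hT Q fun x hx => by
        obtain ⟨b, hb, rfl⟩ := Finset.mem_image.1 hx
        obtain ⟨hb1, hb2⟩ := hmem b hb
        refine ⟨(hS b hb1).2.2.1, ?_, fun φ => ((hS b hb1).2.2.2.1 φ).2.2.2⟩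
        exact hb2 ▸ dt_mem (cn_1 b) (cn_2 b) (cn_3 b)
      have h6 : ni (I ^ 2) = ni I ^ 2 := by rw [pow_two, ni_mul, pow_two]
      rwa [h6] at h5
    have hfib : SI.card ≤ ⌊C3 * X ^ (ε / 2)⌋₊ * (SI.image fun b => (b.2.1, dt b)).card := by
      refine Finset.card_le_mul_card_image _ _ fun z hz => ?_
      obtain ⟨b0, hb0, hz0⟩ := Finset.mem_image.1 hz
      refine Nat.le_floor ?_
      have hinj : Set.InjOn (fun b : T3 K => (b.1, b.2.2)) (SI.filter fun b => (b.2.1, dt b) = z) := by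
        intro b hb b' hb' hbb
        have h7 := (Finset.mem_filter.1 hb).2
        have h8 := (Finset.mem_filter.1 hb').2
        rw [← h8] at h7
        have h9 : b.2.1 = b'.2.1 := (Prod.mk.inj h7).1
        have h10 : b.1 = b'.1 := (Prod.mk.inj hbb).1
        have h11 : b.2.2 = b'.2.2 := (Prod.mk.inj hbb).2
        exact Prod.ext h10 (Prod.ext h9 h11)
      rw [← Finset.card_image_of_injOn hinj]
      refine h3 X hX (b0.1 * b0.2.2) (mul_ne_zero (hS b0 (hmem b0 hb0).1).1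
        (hS b0 (hmem b0 hb0).1).2.1) _ fun t ht => ?_
      obtain ⟨b, hb, rfl⟩ := Finset.mem_image.1 ht
      obtain ⟨hb1, hb2⟩ := Finset.mem_filter.1 hb
      rw [← hz0] at hb2
      have h9 : b.2.1 = b0.2.1 := (Prod.mk.inj hb2).1
      have h10 : dt b = dt b0 := (Prod.mk.inj hb2).2
      refine ⟨?_, fun φ => ⟨((hS b (hmem b hb1).1).2.2.2.1 φ).1,
        ((hS b (hmem b hb1).1).2.2.2.1 φ).2.1⟩⟩
      show b.1 * b.2.2 = b0.1 * b0.2.2
      unfold dt at h10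
      rw [h9] at h10
      linear_combination h10
    have himg : (SI.image fun b => (b.2.1, dt b)).card ≤ P.card * Q.card := by
      rw [← Finset.card_product]
      refine Finset.card_le_card fun z hz => ?_
      obtain ⟨b, hb, rfl⟩ := Finset.mem_image.1 hz
      exact Finset.mem_product.2 ⟨Finset.mem_image_of_mem _ hb, Finset.mem_image_of_mem _ hb⟩
    have hXε : 0 < X ^ (ε / 2) := Real.rpow_pos_of_pos hX0 _
    have h12 : (SI.card : ℝ) ≤
        (C3 * X ^ (ε / 2)) * ((C1 * (1 + vol A / Y)) * (C2 * (vol T / ni I ^ 2))) := by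
      calc (SI.card : ℝ) ≤ ((⌊C3 * X ^ (ε / 2)⌋₊ * (P.card * Q.card) : ℕ) : ℝ) := by
            exact_mod_cast hfib.trans (Nat.mul_le_mul_left _ himg)
        _ = (⌊C3 * X ^ (ε / 2)⌋₊ : ℝ) * ((P.card : ℝ) * (Q.card : ℝ)) := by push_cast; ring
        _ ≤ _ := by
            refine mul_le_mul (Nat.floor_le (by positivity)) ?_ (by positivity) (by positivity)
            exact mul_le_mul hPc hQc (Nat.cast_nonneg _) (by positivity)
    calc (SI.card : ℝ) * ni I ≤ (C3 * X ^ (ε / 2)) * ((C1 * (1 + vol A / Y)) *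
          (C2 * (vol T / ni I ^ 2))) * ni I := mul_le_mul_of_nonneg_right h12 hni0.le
      _ = _ := by
          field_simp
  refine (Finset.sum_le_sum hterm).trans ?_
  rw [← Finset.mul_sum]
  have h5 := h4 (X ^ d) (one_le_pow₀ hX) G hGne
  have h6 : (X ^ d) ^ (ε / 2 / d) = X ^ (ε / 2) := by
    rw [← Real.rpow_natCast, ← Real.rpow_mul hX0.le]
    congr 1
    field_simp
  rw [h6] at h5
  have hXε : 0 < X ^ (ε / 2) := Real.rpow_pos_of_pos hX0 _
  calc C1 * C2 * C3 * X ^ (ε / 2) * ((1 + vol A / Y) * vol T) * ∑ I ∈ G, (ni I)⁻¹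
      ≤ C1 * C2 * C3 * X ^ (ε / 2) * ((1 + vol A / Y) * vol T) * (C4 * X ^ (ε / 2)) :=
        mul_le_mul_of_nonneg_left h5 (by positivity)
    _ = C1 * C2 * C3 * C4 * (X ^ (ε / 2) * X ^ (ε / 2)) * ((1 + vol A / Y) * vol T) := by ring
    _ = _ := by rw [← Real.rpow_add hX0, add_halves]

end H86.WB
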