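import Pool.Agent.H86.WB.Dyg
import Pool.Agent.H67.WA.Cnt

/-!
# (W1#), chapter SUM: sums of negative powers of norms over an ideal, no logarithm

PROOF of `nsum`. `dyg` with `D x φ = sz φ x`, `M φ = X`, `α = 1 - a`: in a class there are at most `C vol η / ni I` elements
(`f1n`), `nz x ≥ vol η / 2 ^ d`.
-/

set_option autoImplicit false

namespace H86.WB

open NumberField Finset H88.A4 Pool.Agent.H67.WA

variable (K : Type) [Field K] [NumberField K]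

theorem nsum {a : ℝ} (ha : 0 ≤ a) (ha1 : a < 1) : ∃ C : ℝ, 1 ≤ C ∧
    ∀ I : Ideal (𝓞 K), I ≠ ⊥ → ∀ X : ℝ, 0 < X → ∀ S : Finset (𝓞 K),
    (∀ x ∈ S, x ≠ 0 ∧ x ∈ I ∧ ∀ φ, sz φ x ≤ X) →
    ∑ x ∈ S, nz x ^ (-a) ≤ C * (X ^ Module.finrank ℚ K) ^ (1 - a) / ni I := by
  classical
  obtain ⟨C1, hC1, h1⟩ := f1n K
  obtain ⟨C2, hC2, h2⟩ := dyg (κ := K →+* ℂ) (α := 1 - a) (by linarith)
  set d := Module.finrank ℚ K with hd
  have h2a : (1 : ℝ) ≤ ((2 : ℝ) ^ d) ^ a := Real.one_le_rpow (one_le_pow₀ (by norm_num)) ha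
  refine ⟨C2 * (C1 * ((2 : ℝ) ^ d) ^ a), one_le_mul_of_one_le_of_one_le hC2
    (one_le_mul_of_one_le_of_one_le hC1 h2a), fun I hI X hX S hS => ?_⟩
  have hi : 0 < ni I := lt_of_lt_of_le one_pos (one_le_ni hI)
  have hXd : 0 < X ^ d := pow_pos hX d
  have h3 := h2 (𝓞 K) S (fun x φ => sz φ x) (fun x => nz x ^ (-a)) (fun _ => X)
    (C1 * ((2 : ℝ) ^ d) ^ a * (X ^ d) ^ (1 - a) / ni I) (by positivity)
    (fun x hx φ => ⟨sz_pos φ (hS x hx).1, (hS x hx).2.2 φ⟩) ?_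
  · refine h3.trans (le_of_eq ?_)
    ring
  · intro η hη S' hS' hcl
    have hv : 0 < vol η := vol_pos fun φ => (hη φ).1
    have hc := h1 I hI η (fun φ => (hη φ).1.le) S' fun x hx =>
      ⟨(hS x (hS' hx)).1, (hS x (hS' hx)).2.1, fun φ => (hcl x hx φ).1⟩
    have hw : ∀ x ∈ S', nz x ^ (-a) ≤ vol η ^ (-a) * ((2 : ℝ) ^ d) ^ a := by
      intro x hx
      have h4 : vol η / 2 ^ d ≤ nz x := by
        rw [div_le_iff₀ (by positivity), mul_comm]
        have h5 : vol η ≤ vol fun φ => 2 * sz φ x :=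
          vol_mono (fun φ => (hη φ).1.le) fun φ => (hcl x hx φ).2
        rwa [vol_smul] at h5
      have h6 : 0 < vol η / 2 ^ d := by positivity
      calc nz x ^ (-a) ≤ (vol η / 2 ^ d) ^ (-a) :=
            Real.rpow_le_rpow_of_nonpos h6 h4 (by linarith)
        _ = vol η ^ (-a) * ((2 : ℝ) ^ d) ^ a := by
            rw [Real.div_rpow hv.le (by positivity), Real.rpow_neg (by positivity : (0:ℝ) ≤ 2 ^ d),
              div_inv_eq_mul]
    have hprod : ∏ φ : K →+* ℂ, (η φ / X) ^ (1 - a) = vol η ^ (1 - a) / (X ^ d) ^ (1 - a) := by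
      rw [Real.finsetProd_rpow _ _ (fun φ _ => div_nonneg (hη φ).1.le hX.le)]
      rw [Finset.prod_div_distrib]
      have : ∏ _φ : K →+* ℂ, X = X ^ d := vol_const X
      rw [this, Real.div_rpow (Finset.prod_nonneg fun φ _ => (hη φ).1.le) hXd.le]
      rfl
    calc ∑ x ∈ S', nz x ^ (-a) ≤ ∑ x ∈ S', vol η ^ (-a) * ((2 : ℝ) ^ d) ^ a :=
          Finset.sum_le_sum hw
      _ = S'.card * (vol η ^ (-a) * ((2 : ℝ) ^ d) ^ a) := by rw [Finset.sum_const, nsmul_eq_mul]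
      _ ≤ (C1 * (vol η / ni I)) * (vol η ^ (-a) * ((2 : ℝ) ^ d) ^ a) :=
          mul_le_mul_of_nonneg_right hc (by positivity)
      _ = C1 * ((2 : ℝ) ^ d) ^ a * (vol η * vol η ^ (-a)) / ni I := by ring
      _ = C1 * ((2 : ℝ) ^ d) ^ a * vol η ^ (1 - a) / ni I := by
          rw [sub_eq_add_neg, Real.rpow_add hv, Real.rpow_one]
      _ = _ := by
          rw [hprod]
          have : (X ^ d) ^ (1 - a) ≠ 0 := (Real.rpow_pos_of_pos hXd _).ne'
          field_simp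

end H86.WB
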